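import Mathlib
import Pool.Agent.Helper22.Sym.Selling
import Pool.Agent.Helper12.LW.Defs

/-!
# Lattice width of lattice-free bodies in dimension three: the equilibrium form

Definitions for the bound `(6 + √66) / 4`.
-/

set_option autoImplicit false

namespace Pool.Agent.Helper24.UB

open Matrix Pool.Agent.Helper22.Sym
open Pool.Agent.Helper12.LW (LFree chainP)

/-- An equilibrium of `K` with parameter `ε`: a finite family of superbases `f i` with weights `y i > 0`, for each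
of them a chain `P i` of lattice points and the tetrahedron of separators `v i`, such that all superbases are obtuse
for the form `Q = ε I + ∑ y i ∑ (v i k)(v i k)ᵀ`. -/
structure Equi (K : Set (Fin 3 → ℝ)) (ε : ℝ) (ι : Type) [Fintype ι] where
  y : ι → ℝ
  f : ι → Fin 4 → Fin 3 → ℤ
  g : ι → Fin 4 → Fin 3 → ℤ
  z : ι → Fin 3 → ℤ
  σ : ι → Equiv.Perm (Fin 3)
  v : ι → Fin 4 → Fin 3 → ℝ
  Q : Matrix (Fin 3) (Fin 3) ℝ
  ypos : ∀ i, 0 < y i
  ysum : ∑ i, y i = 1
  hsb : ∀ i, Superb (f i) (g i)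
  hv0 : ∀ i, ∑ k, v i k = 0
  hv1 : ∀ i, ∑ k, v i k ⬝ᵥ toR (chainP (f i) (z i) (σ i) k) = 1
  hsep : ∀ i k, ∀ x ∈ K, v i k ⬝ᵥ x ≤ v i k ⬝ᵥ toR (chainP (f i) (z i) (σ i) k)
  hpd : Q.PosDef
  hQ : ∀ x w : Fin 3 → ℝ,
    x ⬝ᵥ Q *ᵥ w = ε * (x ⬝ᵥ w) + ∑ i, y i * ∑ k, (v i k ⬝ᵥ x) * (v i k ⬝ᵥ w)
  hob : ∀ i a b, a ≠ b → bil Q (f i a) (f i b) ≤ 0

/-- the first index of the pair with number `s` -/
def pa : Fin 6 → Fin 4 := ![0, 0, 0, 1, 1, 2]

/-- the second index of the pair with number `s` -/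
def pb : Fin 6 → Fin 4 := ![1, 2, 3, 2, 3, 3]

/-- the root of the superbase with potentials `g` for the pair with number `s` -/
def rt (g : Fin 4 → Fin 3 → ℤ) (s : Fin 6) : Fin 3 → ℤ := g (pa s) - g (pb s)

/-- the product of the root `a - b` with the `k`-th point of the chain of order `σ`, starting with `0` -/
def eta (a b : Fin 4) (σ : Equiv.Perm (Fin 3)) (k : Fin 4) : ℤ :=
  ∑ j : Fin 3, if (j : ℕ) < (k : ℕ) then
    ((if a = (σ j).castSucc then 1 else 0) - (if b = (σ j).castSucc then 1 else 0)) else 0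

/-- one if the root `a - b` takes both of its values twice on the chain, zero otherwise -/
def tt (a b : Fin 4) (σ : Equiv.Perm (Fin 3)) : ℤ :=
  4 * ∑ k, eta a b σ k ^ 2 - (∑ k, eta a b σ k) ^ 2 - 3

end Pool.Agent.Helper24.UB
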