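import Mathlib
import Pool.Agent.Helper24.UB.Defs

/-!
# Lattice width and asymmetry: the equilibrium form with weights

Definitions for the bound `3/2 + √(3 (s² + 4 s + 1) / (1 + s)) / 2` for bodies of asymmetry at most `s`.
-/

set_option autoImplicit false

namespace Pool.Agent.Helper24.UB

open Matrix Pool.Agent.Helper22.Sym
open Pool.Agent.Helper12.LW (LFree chainP)

/-- Weights `κ f k` for all systems of separators: on `K` the gap `v k · (P k - x)` is at most `κ k`. -/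
structure Capped (K : Set (Fin 3 → ℝ)) (Y : ℝ) (P : Fin 4 → Fin 3 → ℤ) (v : Fin 4 → Fin 3 → ℝ)
    (κ : Fin 4 → ℝ) : Prop where
  nonneg : ∀ k, 0 ≤ κ k
  le_one : ∀ k, κ k ≤ 1
  sum_le : ∑ k, κ k ≤ Y
  sum_pos : 0 < ∑ k, κ k
  zero : ∀ k, κ k = 0 → v k = 0
  gap : ∀ k, ∀ x ∈ K, v k ⬝ᵥ toR (P k) - v k ⬝ᵥ x ≤ κ k

/-- An equilibrium of `K` with parameter `ε` and weights `κ i k ≤ 1`, `∑ κ i k ≤ Y`. -/
structure EquiK (K : Set (Fin 3 → ℝ)) (ε Y : ℝ) (ι : Type) [Fintype ι] where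
  y : ι → ℝ
  f : ι → Fin 4 → Fin 3 → ℤ
  g : ι → Fin 4 → Fin 3 → ℤ
  z : ι → Fin 3 → ℤ
  σ : ι → Equiv.Perm (Fin 3)
  v : ι → Fin 4 → Fin 3 → ℝ
  κ : ι → Fin 4 → ℝ
  Q : Matrix (Fin 3) (Fin 3) ℝ
  ypos : ∀ i, 0 < y i
  ysum : ∑ i, y i = 1
  hsb : ∀ i, Superb (f i) (g i)
  hv0 : ∀ i, ∑ k, v i k = 0
  hv1 : ∀ i, ∑ k, v i k ⬝ᵥ toR (chainP (f i) (z i) (σ i) k) = 1
  hsep : ∀ i k, ∀ x ∈ K, v i k ⬝ᵥ x ≤ v i k ⬝ᵥ toR (chainP (f i) (z i) (σ i) k)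
  hcap : ∀ i, Capped K Y (chainP (f i) (z i) (σ i)) (v i) (κ i)
  hpd : Q.PosDef
  hQ : ∀ x w : Fin 3 → ℝ,
    x ⬝ᵥ Q *ᵥ w = ε * (x ⬝ᵥ w) + ∑ i, y i * ∑ k, (v i k ⬝ᵥ x) * (v i k ⬝ᵥ w) / κ i k
  hob : ∀ i a b, a ≠ b → bil Q (f i a) (f i b) ≤ 0

end Pool.Agent.Helper24.UB
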