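import Pool.Agent.Helper1.FX.ExistsEqui
import Pool.Agent.Helper24.UB.AsDefs

/-! Lattice width and asymmetry: existence of the equilibrium with weights, and the weights. -/

set_option autoImplicit false

namespace Pool.Agent.Helper24.UB

open Matrix Pool.Agent.Helper22.Sym
open Pool.Agent.Helper12.LW (LFree chainP Sep4)
open Pool.Agent.Helper84.FL (Superbase)
open Pool.Agent.Helper1.FX (gram gram_apply PP rep InQ equil_gen toR_same exists_pot)

/-- small steps from an interior point stay in the body -/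
theorem mem_step {K : Set (Fin 3 → ℝ)} {c : Fin 3 → ℝ} (hc : c ∈ interior K) :
    ∃ r : ℝ, 0 < r ∧ ∀ (t : ℝ) (a : Fin 3), |t| ≤ r → c + t • (Pi.single a 1 : Fin 3 → ℝ) ∈ K := by
  rw [mem_interior_iff_mem_nhds, Metric.mem_nhds_iff] at hc
  obtain ⟨ε, hε, hb⟩ := hc
  refine ⟨ε / 2, by positivity, fun t a ht => ?_⟩
  apply hb
  rw [Metric.mem_ball, dist_eq_norm, add_sub_cancel_left, norm_smul, Real.norm_eq_abs]
  have h1 : ‖(Pi.single a 1 : Fin 3 → ℝ)‖ ≤ 1 := by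
    rw [pi_norm_le_iff_of_nonneg zero_le_one]
    intro i
    by_cases h : i = a
    · subst h; simp
    · simp [h]
  have h2 : |t| * ‖(Pi.single a 1 : Fin 3 → ℝ)‖ ≤ (ε / 2) * 1 :=
    mul_le_mul ht h1 (norm_nonneg _) (by positivity)
  linarith

theorem step_dot (v : Fin 3 → ℝ) (p c : Fin 3 → ℝ) (t : ℝ) (a : Fin 3) :
    v ⬝ᵥ p - v ⬝ᵥ (c + t • (Pi.single a 1 : Fin 3 → ℝ)) = (v ⬝ᵥ p - v ⬝ᵥ c) - t * v a := by
  rw [dotProduct_add, dotProduct_smul, dotProduct_single, mul_one, smul_eq_mul]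
  ring

/-- the entries of a separator are bounded by its weight -/
theorem entry_le {K : Set (Fin 3 → ℝ)} {c : Fin 3 → ℝ} {r : ℝ} (hr : 0 < r)
    (hmem : ∀ (t : ℝ) (a : Fin 3), |t| ≤ r → c + t • (Pi.single a 1 : Fin 3 → ℝ) ∈ K)
    (v p : Fin 3 → ℝ) (κ : ℝ) (hsep : ∀ x ∈ K, v ⬝ᵥ x ≤ v ⬝ᵥ p) (hgap : ∀ x ∈ K, v ⬝ᵥ p - v ⬝ᵥ x ≤ κ)
    (a : Fin 3) : |v a| ≤ κ / (2 * r) := by
  have h1 := hsep _ (hmem r a (by rw [abs_of_pos hr]))
  have h2 := hsep _ (hmem (-r) a (by rw [abs_neg, abs_of_pos hr]))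
  have h3 := hgap _ (hmem r a (by rw [abs_of_pos hr]))
  have h4 := hgap _ (hmem (-r) a (by rw [abs_neg, abs_of_pos hr]))
  have e1 := step_dot v p c r a
  have e2 := step_dot v p c (-r) a
  rw [abs_le]
  have hr2 : 0 < 2 * r := by positivity
  constructor
  · rw [← neg_div, div_le_iff₀ hr2]
    linarith
  · rw [le_div_iff₀ hr2]
    linarith

/-- (A2) the weights for a body of asymmetry at most `s` about `c` -/
theorem exists_cap (K : Set (Fin 3 → ℝ)) (hK : LFree K) (c : Fin 3 → ℝ) (s : ℝ) (hs : 1 ≤ s)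
    (hc : ∀ x ∈ K, c - (1 / s) • (x - c) ∈ K) (P : Fin 4 → Fin 3 → ℤ) (v : Fin 4 → Fin 3 → ℝ)
    (h : Sep4 K P v) : ∃ κ, Capped K (1 + s) P v κ := by
  have hs0 : 0 < s := by linarith
  obtain ⟨x0, hx0⟩ := hK.interior_nonempty
  -- the gaps have sum one at every point
  have hsum1 : ∀ x : Fin 3 → ℝ, ∑ k, (v k ⬝ᵥ toR (P k) - v k ⬝ᵥ x) = 1 := by
    intro x
    rw [Finset.sum_sub_distrib, ← sum_dotProduct, h.sum_zero, zero_dotProduct, sub_zero]
    exact h.norm_one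
  have hg0 : ∀ k, ∀ x ∈ K, 0 ≤ v k ⬝ᵥ toR (P k) - v k ⬝ᵥ x := by
    intro k x hx
    have := h.sep k x hx
    rw [← toR_same] at this
    linarith
  -- the point `c` is in `K`
  have hcK : c ∈ K := by
    have h1 : x0 ∈ K := interior_subset hx0
    have h2 := hc x0 h1
    have h3 := hK.convex h1 h2 (a := 1 / (1 + s)) (b := s / (1 + s)) (by positivity) (by positivity)
      (by field_simp)
    have h4 : (1 / (1 + s)) • x0 + (s / (1 + s)) • (c - (1 / s) • (x0 - c)) = c := by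
      ext j
      simp only [Pi.add_apply, Pi.smul_apply, Pi.sub_apply, smul_eq_mul]
      field_simp
      ring
    rw [h4] at h3
    exact h3
  -- a gap is at most `(1 + s)` times the gap at `c`
  have hgc : ∀ k, ∀ x ∈ K, v k ⬝ᵥ toR (P k) - v k ⬝ᵥ x ≤ (1 + s) * (v k ⬝ᵥ toR (P k) - v k ⬝ᵥ c) := by
    intro k x hx
    have h1 := hg0 k _ (hc x hx)
    have h2 : v k ⬝ᵥ (c - (1 / s) • (x - c)) = v k ⬝ᵥ c - (1 / s) * (v k ⬝ᵥ x - v k ⬝ᵥ c) := by
      rw [dotProduct_sub, dotProduct_smul, dotProduct_sub, smul_eq_mul]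
    rw [h2] at h1
    have h3 : s * ((v k ⬝ᵥ toR (P k) - v k ⬝ᵥ c) + (1 / s) * (v k ⬝ᵥ x - v k ⬝ᵥ c)) =
        s * (v k ⬝ᵥ toR (P k) - v k ⬝ᵥ c) + (v k ⬝ᵥ x - v k ⬝ᵥ c) := by
      field_simp
    have h4 : 0 ≤ s * ((v k ⬝ᵥ toR (P k) - v k ⬝ᵥ c) + (1 / s) * (v k ⬝ᵥ x - v k ⬝ᵥ c)) :=
      mul_nonneg hs0.le (by linarith)
    rw [h3] at h4
    linarith
  have hg1 : ∀ k, ∀ x ∈ K, v k ⬝ᵥ toR (P k) - v k ⬝ᵥ x ≤ 1 := by
    intro k x hx
    rw [← hsum1 x]
    exact Finset.single_le_sum (f := fun k => v k ⬝ᵥ toR (P k) - v k ⬝ᵥ x) (fun l _ => hg0 l x hx)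
      (Finset.mem_univ k)
  obtain ⟨r, hr, hmem⟩ := mem_step hx0
  refine ⟨fun k => min 1 ((1 + s) * (v k ⬝ᵥ toR (P k) - v k ⬝ᵥ c)), ?_, ?_, ?_, ?_, ?_, ?_⟩
  · intro k
    exact le_min zero_le_one (mul_nonneg (by linarith) (hg0 k c hcK))
  · intro k
    exact min_le_left _ _
  · refine (Finset.sum_le_sum fun k _ => min_le_right _ _).trans ?_
    rw [← Finset.mul_sum, hsum1 c, mul_one]
  · have h1 : 0 < ∑ k, (v k ⬝ᵥ toR (P k) - v k ⬝ᵥ c) := by rw [hsum1 c]; exact one_pos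
    obtain ⟨k, -, hk⟩ := Finset.exists_lt_of_sum_lt (s := Finset.univ) (f := fun _ : Fin 4 => (0 : ℝ))
      (g := fun k => v k ⬝ᵥ toR (P k) - v k ⬝ᵥ c) (by simpa using h1)
    refine lt_of_lt_of_le (lt_min one_pos (mul_pos (by linarith : (0 : ℝ) < 1 + s) hk)) ?_
    exact Finset.single_le_sum (f := fun k => min 1 ((1 + s) * (v k ⬝ᵥ toR (P k) - v k ⬝ᵥ c)))
      (fun l _ => le_min zero_le_one (mul_nonneg (by linarith) (hg0 l c hcK))) (Finset.mem_univ k)
  · intro k hk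
    have hk0 : ∀ x ∈ K, v k ⬝ᵥ toR (P k) - v k ⬝ᵥ x ≤ 0 := by
      intro x hx
      have h1 := hgc k x hx
      have h2 := hg0 k c hcK
      have h3 : (1 + s) * (v k ⬝ᵥ toR (P k) - v k ⬝ᵥ c) ≤ 0 := by
        by_contra hcon
        push Not at hcon
        have h4 := lt_min one_pos hcon
        have h5 : min 1 ((1 + s) * (v k ⬝ᵥ toR (P k) - v k ⬝ᵥ c)) = 0 := hk
        linarith
      linarith
    ext a
    have h1 := entry_le hr hmem (v k) (toR (P k)) 0 (fun x hx => by linarith [hg0 k x hx]) hk0 a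
    rw [zero_div] at h1
    rw [Pi.zero_apply]
    exact abs_nonpos_iff.mp h1
  · intro k x hx
    exact le_min (hg1 k x hx) (hgc k x hx)

/-- (A1) existence of the equilibrium with weights -/
theorem exists_equiK (K : Set (Fin 3 → ℝ)) (hK : LFree K) (Y : ℝ)
    (hcap : ∀ (P : Fin 4 → Fin 3 → ℤ) (v : Fin 4 → Fin 3 → ℝ), Sep4 K P v → ∃ κ, Capped K Y P v κ)
    (ε : ℝ) (hε : 0 < ε) :
    ∃ (ι : Type) (_ : Fintype ι) (_ : Nonempty ι), Nonempty (EquiK K ε Y ι) := by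
  classical
  obtain ⟨x0, hx0⟩ := hK.interior_nonempty
  obtain ⟨r, hr, hmem⟩ := mem_step hx0
  have hdet : ∀ f : Fin 4 → Fin 3 → ℤ, Superbase f → IsUnit (Matrix.of ![f 0, f 1, f 2]).det := by
    intro f hf
    obtain ⟨w, hw⟩ := Pool.Agent.Helper84.FL.dual_basis f hf
    obtain ⟨F, hF⟩ : ∃ F : Matrix (Fin 3) (Fin 3) ℤ, F = Matrix.of ![f 0, f 1, f 2] := ⟨_, rfl⟩
    obtain ⟨M, hM⟩ : ∃ M : Matrix (Fin 3) (Fin 3) ℤ, M = Matrix.of fun k i => w i.castSucc k := ⟨_, rfl⟩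
    have h1 : F * M = 1 := by
      ext l i
      rw [Matrix.mul_apply, Matrix.one_apply]
      have h2 := hw i.castSucc l.castSucc
      have h3 : l.castSucc ≠ (3 : Fin 4) := by
        intro h
        have := congrArg Fin.val h
        simp at this
        omega
      rw [if_neg h3, sub_zero] at h2
      simp only [Fin.castSucc_inj] at h2
      rw [← h2]
      refine Finset.sum_congr rfl (fun k _ => ?_)
      rw [mul_comm, hF, hM]
      congr 1
      fin_cases l <;> rfl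
    have h2 : F.det * M.det = 1 := by rw [← Matrix.det_mul, h1, Matrix.det_one]
    rw [← hF]
    exact IsUnit.of_mul_eq_one _ h2
  have hex : ∀ f : Fin 4 → Fin 3 → ℤ, ∃ (z : Fin 3 → ℤ) (σ : Equiv.Perm (Fin 3)) (v : Fin 4 → Fin 3 → ℝ)
      (κ : Fin 4 → ℝ), Superbase f → Sep4 K (chainP f z σ) v ∧ Capped K Y (chainP f z σ) v κ := by
    intro f
    by_cases hf : Superbase f
    · obtain ⟨z, σ, v, h⟩ := Pool.Agent.Helper1.UB.LW.sperner K hK f hf.sum (hdet f hf)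
      obtain ⟨κ, hκ⟩ := hcap _ _ h
      exact ⟨z, σ, v, κ, fun _ => ⟨h, hκ⟩⟩
    · exact ⟨0, 1, 0, 0, fun h => absurd h hf⟩
  choose z σ V κ hV using hex
  obtain ⟨V', hV'⟩ : ∃ V' : (Fin 4 → Fin 3 → ℤ) → Fin 4 → Fin 3 → ℝ,
      V' = fun f k => (1 / Real.sqrt (κ f k)) • V f k := ⟨_, rfl⟩
  have hprod : ∀ f, Superbase f → ∀ k (a b : ℝ), (1 / Real.sqrt (κ f k) * a) * (1 / Real.sqrt (κ f k) * b) =
      a * b / κ f k := by
    intro f hf k a b
    have h1 := (hV f hf).2.nonneg k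
    have h2 : Real.sqrt (κ f k) * Real.sqrt (κ f k) = κ f k := Real.mul_self_sqrt h1
    have h3 : (1 / Real.sqrt (κ f k) * a) * (1 / Real.sqrt (κ f k) * b) =
        a * b / (Real.sqrt (κ f k) * Real.sqrt (κ f k)) := by
      rw [mul_mul_mul_comm, div_mul_div_comm, one_mul, one_div_mul_eq_div]
    rw [h3, h2]
  have hbd : ∀ f, Superbase f → ∀ a b, |gram (V' f) a b| ≤ 1 / r ^ 2 := by
    intro f hf a b
    rw [gram_apply]
    have h0 : ∀ k, V' f k a * V' f k b = V f k a * V f k b / κ f k := by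
      intro k
      rw [hV']
      simp only [Pi.smul_apply, smul_eq_mul]
      exact hprod f hf k _ _
    have h1 : ∀ k, |V' f k a * V' f k b| ≤ 1 / (4 * r ^ 2) := by
      intro k
      rw [h0 k]
      obtain ⟨hs4, hcp⟩ := hV f hf
      have hva := fun a => entry_le hr hmem (V f k) (toR (chainP f (z f) (σ f) k)) (κ f k)
        (fun x hx => hs4.sep k x hx) (fun x hx => hcp.gap k x hx) a
      rcases (hcp.nonneg k).eq_or_lt with h | h
      · rw [← h, div_zero, abs_zero]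
        positivity
      · rw [abs_div, abs_of_pos h, abs_mul, div_le_iff₀ h]
        have h2 : |V f k a| * |V f k b| ≤ κ f k / (2 * r) * (κ f k / (2 * r)) :=
          mul_le_mul (hva a) (hva b) (abs_nonneg _) (by positivity)
        refine h2.trans ?_
        have h3 : κ f k / (2 * r) * (κ f k / (2 * r)) = (1 / (4 * r ^ 2) * κ f k) * κ f k := by
          field_simp
          ring
        rw [h3]
        exact mul_le_of_le_one_right (by positivity) (hcp.le_one k)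
    refine (Finset.abs_sum_le_sum_abs _ _).trans ?_
    refine (Finset.sum_le_sum (fun k _ => h1 k)).trans (le_of_eq ?_)
    rw [Finset.sum_const, Finset.card_univ, Fintype.card_fin, nsmul_eq_mul]
    field_simp
    norm_num
  obtain ⟨F, y, Q, hQe, hQ, hy1, hF⟩ := equil_gen V' (1 / r ^ 2) (by positivity) hbd ε hε
  have hPD := hQ.posDef hε
  have hexg : ∀ f : {f // f ∈ F}, ∃ g : Fin 4 → Fin 3 → ℤ, Superb f.1 g := fun f =>
    exists_pot f.1 (hF f.1 f.2).2.1
  choose g hg using hexg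
  have hne : Nonempty {f // f ∈ F} := by
    by_contra hcon
    rw [not_nonempty_iff] at hcon
    have h1 : F = ∅ := by
      rw [Finset.eq_empty_iff_forall_notMem]
      intro f hf
      exact hcon.false ⟨f, hf⟩
    rw [h1, Finset.sum_empty] at hy1
    exact zero_ne_one hy1
  have hbil : ∀ (v : Fin 4 → Fin 3 → ℝ) (x w : Fin 3 → ℝ),
      x ⬝ᵥ gram v *ᵥ w = ∑ k, (v k ⬝ᵥ x) * (v k ⬝ᵥ w) := by
    intro v x w
    simp only [dotProduct, mulVec, gram_apply, Fin.sum_univ_three, Fin.sum_univ_four]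
    ring
  have hsum : ∀ (x w : Fin 3 → ℝ) (s : Finset (Fin 4 → Fin 3 → ℤ))
      (A : (Fin 4 → Fin 3 → ℤ) → Matrix (Fin 3) (Fin 3) ℝ),
      x ⬝ᵥ (∑ f ∈ s, A f) *ᵥ w = ∑ f ∈ s, x ⬝ᵥ A f *ᵥ w := by
    intro x w s A
    induction s using Finset.induction_on with
    | empty => simp
    | insert f s hf ih => rw [Finset.sum_insert hf, Finset.sum_insert hf, add_mulVec, dotProduct_add, ih]
  refine ⟨{f // f ∈ F}, inferInstance, hne, ⟨{
    y := fun f => y f.1
    f := fun f => f.1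
    g := g
    z := fun f => z f.1
    σ := fun f => σ f.1
    v := fun f => V f.1
    κ := fun f => κ f.1
    Q := Q
    ypos := fun f => (hF f.1 f.2).1
    ysum := ?_
    hsb := hg
    hv0 := fun f => (hV f.1 (hF f.1 f.2).2.1).1.sum_zero
    hv1 := fun f => (hV f.1 (hF f.1 f.2).2.1).1.norm_one
    hsep := fun f => (hV f.1 (hF f.1 f.2).2.1).1.sep
    hcap := fun f => (hV f.1 (hF f.1 f.2).2.1).2
    hpd := hPD
    hQ := ?_
    hob := ?_ }⟩⟩
  · rw [← hy1]
    exact Finset.sum_coe_sort F y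
  · intro x w
    conv_lhs => rw [hQe]
    rw [add_mulVec, dotProduct_add, smul_mulVec, one_mulVec, dotProduct_smul, smul_eq_mul, hsum]
    congr 1
    rw [← Finset.sum_coe_sort F]
    refine Finset.sum_congr rfl (fun f _ => ?_)
    rw [smul_mulVec, dotProduct_smul, smul_eq_mul, hbil]
    congr 1
    refine Finset.sum_congr rfl (fun k _ => ?_)
    rw [hV']
    simp only [smul_dotProduct, smul_eq_mul]
    exact hprod f.1 (hF f.1 f.2).2.1 k _ _
  · intro f a b hab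
    obtain ⟨-, h2, -, h4⟩ := hF f.1 f.2
    have h5 := Pool.Agent.Helper73.FX.sp_nonneg_of_min
      (Pool.Agent.Helper1.FX.posDef_symm hPD) h2 (fun g hg => h4 g hg) hab
    unfold Pool.Agent.Helper73.FX.sp at h5
    unfold Pool.Agent.Helper22.Sym.bil
    rw [toR_same]
    linarith

end Pool.Agent.Helper24.UB
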