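import Mathlib
import Pool.Agent.Helper24.UB.Defs
import Pool.Agent.Helper22.Sym.Core

/-! Combinatorics of a root on a chain. -/

set_option autoImplicit false

namespace Pool.Agent.Helper24.UB

open Matrix Pool.Agent.Helper22.Sym
open Pool.Agent.Helper12.LW (LFree chainP)

/-- (N1) the values of a root on the chain -/
theorem chain_val (f : Fin 4 → Fin 3 → ℤ) (z : Fin 3 → ℤ) (σ : Equiv.Perm (Fin 3)) (r : Fin 3 → ℤ) (a b : Fin 4)
    (h : ∀ l, r ⬝ᵥ f l = (if a = l then 1 else 0) - (if b = l then 1 else 0)) (k : Fin 4) :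
    r ⬝ᵥ chainP f z σ k = r ⬝ᵥ z + eta a b σ k := by
  unfold chainP eta
  rw [dotProduct_add, dotProduct_sum]
  congr 1
  refine Finset.sum_congr rfl fun j _ => ?_
  by_cases hj : (j : ℕ) < (k : ℕ)
  · rw [if_pos hj, if_pos hj, h]
  · rw [if_neg hj, if_neg hj, dotProduct_zero]

/-- (N2) -/
theorem eta_le (a b : Fin 4) (σ : Equiv.Perm (Fin 3)) (k l : Fin 4) : eta a b σ k - eta a b σ l ≤ 1 := by
  revert a b σ k l
  decide +kernel

/-- (N3) -/
theorem tt_mem (a b : Fin 4) (hab : a ≠ b) (σ : Equiv.Perm (Fin 3)) : tt a b σ = 0 ∨ tt a b σ = 1 := by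
  revert a b σ
  decide +kernel

theorem tt_symm (a b : Fin 4) (σ : Equiv.Perm (Fin 3)) : tt a b σ = tt b a σ := by
  revert a b σ
  decide +kernel

theorem tt_sum_six (σ : Equiv.Perm (Fin 3)) : ∑ s : Fin 6, tt (pa s) (pb s) σ = 2 := by
  revert σ
  decide +kernel

/-- the number of an unordered pair -/
def num (a b : Fin 4) : Fin 6 :=
  if (a = 0 ∧ b = 1) ∨ (a = 1 ∧ b = 0) then 0
  else if (a = 0 ∧ b = 2) ∨ (a = 2 ∧ b = 0) then 1
  else if (a = 0 ∧ b = 3) ∨ (a = 3 ∧ b = 0) then 2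
  else if (a = 1 ∧ b = 2) ∨ (a = 2 ∧ b = 1) then 3
  else if (a = 1 ∧ b = 3) ∨ (a = 3 ∧ b = 1) then 4 else 5

theorem num_spec (a b : Fin 4) (hab : a ≠ b) :
    (pa (num a b) = a ∧ pb (num a b) = b) ∨ (pa (num a b) = b ∧ pb (num a b) = a) := by
  revert a b
  decide +kernel

theorem pair_inj (s t : Fin 6)
    (h : (∀ l : Fin 4, ((if pa s = l then 1 else 0) - (if pb s = l then 1 else 0) : ℤ) =
        (if pa t = l then 1 else 0) - (if pb t = l then 1 else 0)) ∨
      (∀ l : Fin 4, ((if pa s = l then 1 else 0) - (if pb s = l then 1 else 0) : ℤ) =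
        -((if pa t = l then 1 else 0) - (if pb t = l then 1 else 0)))) : s = t := by
  revert s t
  decide +kernel

/-- integer functionals are determined by the values on a superbase -/
theorem ext_superb (f g : Fin 4 → Fin 3 → ℤ) (hf : Superb f g) (r : Fin 3 → ℤ) (hr : ∀ l, r ⬝ᵥ f l = 0)
    (x : Fin 3 → ℤ) : r ⬝ᵥ x = 0 := by
  have h1 := repr_vec f g hf (toR x)
  have h2 : toR r ⬝ᵥ toR x = 0 := by
    rw [← h1, dotProduct_sum]
    refine Finset.sum_eq_zero fun l _ => ?_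
    rw [dotProduct_smul]
    have h3 : toR r ⬝ᵥ toR (f l) = ((r ⬝ᵥ f l : ℤ) : ℝ) := by
      simp [toR, dotProduct]
    rw [h3, hr l]
    simp
  have h4 : toR r ⬝ᵥ toR x = ((r ⬝ᵥ x : ℤ) : ℝ) := by
    simp [toR, dotProduct]
  rw [h4] at h2
  exact_mod_cast h2

/-- (N4) at most two of the common roots have both values twice -/
theorem tt_sum (F G f g : Fin 4 → Fin 3 → ℤ) (hF : Superb F G) (hf : Superb f g) (σ : Equiv.Perm (Fin 3))
    (S : Finset (Fin 6)) (a b : Fin 6 → Fin 4) (hab : ∀ s ∈ S, a s ≠ b s)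
    (h : ∀ s ∈ S, ∀ l, rt G s ⬝ᵥ f l = (if a s = l then 1 else 0) - (if b s = l then 1 else 0)) :
    ∑ s ∈ S, tt (a s) (b s) σ ≤ 2 := by
  have hF' : ∀ s l, rt G s ⬝ᵥ F l = (if pa s = l then 1 else 0) - (if pb s = l then 1 else 0) := by
    intro s l
    exact hF.2 (pa s) (pb s) l
  have hinj : ∀ s ∈ S, ∀ t ∈ S, num (a s) (b s) = num (a t) (b t) → s = t := by
    intro s hs t ht hst
    have hs' := num_spec (a s) (b s) (hab s hs)
    have ht' := num_spec (a t) (b t) (hab t ht)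
    rw [hst] at hs'
    have hcase : (a s = a t ∧ b s = b t) ∨ (a s = b t ∧ b s = a t) := by
      rcases hs' with ⟨h1, h2⟩ | ⟨h1, h2⟩ <;> rcases ht' with ⟨h3, h4⟩ | ⟨h3, h4⟩
      · left; exact ⟨h1.symm.trans h3, h2.symm.trans h4⟩
      · right; exact ⟨h1.symm.trans h3, h2.symm.trans h4⟩
      · right; exact ⟨h2.symm.trans h4, h1.symm.trans h3⟩
      · left; exact ⟨h2.symm.trans h4, h1.symm.trans h3⟩
    apply pair_inj
    rcases hcase with ⟨h1, h2⟩ | ⟨h1, h2⟩
    · left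
      intro l
      have h3 : ∀ l, (rt G s - rt G t) ⬝ᵥ f l = 0 := by
        intro l
        rw [sub_dotProduct, h s hs, h t ht, h1, h2, sub_self]
      have h4 := ext_superb f g hf _ h3 (F l)
      rw [sub_dotProduct, hF', hF'] at h4
      linarith
    · right
      intro l
      have h3 : ∀ l, (rt G s + rt G t) ⬝ᵥ f l = 0 := by
        intro l
        rw [add_dotProduct, h s hs, h t ht, h1, h2]
        ring
      have h4 := ext_superb f g hf _ h3 (F l)
      rw [add_dotProduct, hF', hF'] at h4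
      linarith
  have h1 : ∀ s ∈ S, tt (a s) (b s) σ = tt (pa (num (a s) (b s))) (pb (num (a s) (b s))) σ := by
    intro s hs
    rcases num_spec (a s) (b s) (hab s hs) with ⟨h1, h2⟩ | ⟨h1, h2⟩
    · rw [h1, h2]
    · rw [h1, h2, tt_symm]
  rw [Finset.sum_congr rfl h1]
  have h2 : ∑ s ∈ S, tt (pa (num (a s) (b s))) (pb (num (a s) (b s))) σ =
      ∑ t ∈ S.image fun s => num (a s) (b s), tt (pa t) (pb t) σ := by
    rw [Finset.sum_image]
    intro s hs t ht hst
    exact hinj s hs t ht hst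
  rw [h2, ← tt_sum_six σ]
  refine Finset.sum_le_sum_of_subset_of_nonneg (Finset.subset_univ _) fun t _ _ => ?_
  have h3 : ∀ u : Fin 6, pa u ≠ pb u := by decide +kernel
  rcases tt_mem (pa t) (pb t) (h3 t) σ with h | h <;> rw [h] <;> norm_num

end Pool.Agent.Helper24.UB
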