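import Mathlib
import Pool.Agent.Helper24.UB.Defs
import Pool.Agent.Helper24.UB.Comb
import Pool.Agent.Helper18.UBd.Roots
import Pool.Agent.Helper18.UBd.Hilb
import Pool.Agent.Helper92.UB.Leaves
import Pool.Agent.Helper1.FX.ExistsEqui

/-! The universal bound `(6 + √66) / 4` for the lattice width of lattice-free bodies in dimension three. -/

set_option autoImplicit false

namespace Pool.Agent.Helper24.UB

open Matrix Pool.Agent.Helper22.Sym
open Pool.Agent.Helper12.LW (LFree chainP)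
open Pool.Agent.Helper18.UBd Pool.Agent.Helper92.UB

/-- difference of two unit vectors -/
def rho (p m k : Fin 4) : ℤ := (if k = p then 1 else 0) - (if k = m then 1 else 0)

theorem rho_sq (p m : Fin 4) : ∑ k, rho p m k ^ 2 ≤ 2 := by
  revert p m
  decide +kernel

theorem rho_sum (p m : Fin 4) (x : Fin 4 → ℝ) : ∑ k, (rho p m k : ℝ) * x k = x p - x m := by
  unfold rho
  push_cast
  simp only [sub_mul, ite_mul, one_mul, zero_mul, Finset.sum_sub_distrib, Finset.sum_ite_eq',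
    Finset.mem_univ, if_true]

/-- the centred values of a root on a chain -/
noncomputable def etb (a b : Fin 4) (σ : Equiv.Perm (Fin 3)) (k : Fin 4) : ℝ :=
  (eta a b σ k : ℝ) - (∑ l, (eta a b σ l : ℝ)) / 4

theorem etb_sq (a b : Fin 4) (σ : Equiv.Perm (Fin 3)) :
    ∑ k, etb a b σ k ^ 2 = (3 + (tt a b σ : ℝ)) / 4 := by
  unfold etb tt
  push_cast
  simp only [Fin.sum_univ_four]
  ring

theorem rho_etb (a b : Fin 4) (σ : Equiv.Perm (Fin 3)) (p m : Fin 4) :
    ∑ k, (rho p m k : ℝ) * etb a b σ k ≤ 1 := by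
  rw [rho_sum]
  unfold etb
  have h := eta_le a b σ p m
  have h' : ((eta a b σ p : ℝ)) - (eta a b σ m : ℝ) ≤ 1 := by exact_mod_cast h
  linarith

/-- the bound for a fixed parameter of the equilibrium -/
theorem main_eps {K : Set (Fin 3 → ℝ)} {ε δ D : ℝ} (hδ : 0 < δ) (hε : ε = δ ^ 2) (hD : 0 ≤ D)
    (hKD : ∀ x ∈ K, ∀ x' ∈ K, (x - x') ⬝ᵥ (x - x') ≤ D ^ 2)
    {ι : Type} [Fintype ι] [Nonempty ι] (e : Equi K ε ι) (W : ℝ) (hW0 : 0 ≤ W)
    (hW : ∀ r : Fin 3 → ℤ, r ≠ 0 → ∃ x ∈ K, ∃ x' ∈ K, W < toR r ⬝ᵥ (x - x')) :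
    W ≤ (3 / 2) * (1 + Real.sqrt (11 / 6)) + (3 / 2) * D * δ := by
  classical
  obtain ⟨i0⟩ := (inferInstance : Nonempty ι)
  have hεpos : 0 < ε := by rw [hε]; positivity
  obtain ⟨r, hr⟩ : ∃ r : Fin 6 → Fin 3 → ℤ, r = rt (e.g i0) := ⟨_, rfl⟩
  obtain ⟨p, hpdef⟩ : ∃ p : Fin 6 → ℝ, p = fun s => -bil e.Q (e.f i0 (pa s)) (e.f i0 (pb s)) := ⟨_, rfl⟩
  have hne : ∀ s : Fin 6, pa s ≠ pb s := by decide +kernel
  have hp : ∀ u v : Fin 3 → ℝ, u ⬝ᵥ e.Q *ᵥ v = ∑ s, p s * ((toR (r s) ⬝ᵥ u) * (toR (r s) ⬝ᵥ v)) := by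
    intro u v
    rw [hr, hpdef]
    exact Pool.Agent.Helper18.UBd.expand e.Q e.hpd (e.f i0) (e.g i0) (e.hsb i0) u v
  have hp0 : ∀ s, 0 ≤ p s := by
    intro s
    rw [hpdef]
    have := e.hob i0 (pa s) (pb s) (hne s)
    simp only
    linarith
  have hr0 : ∀ s, r s ≠ 0 := by
    intro s hs
    have h1 := (e.hsb i0).2 (pa s) (pb s) (pa s)
    have h2 : (e.g i0 (pa s) - e.g i0 (pb s)) = 0 := by
      rw [hr] at hs
      exact hs
    rw [h2, zero_dotProduct, if_pos rfl, if_neg (hne s).symm] at h1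
    norm_num at h1
  -- the common roots
  have hex : ∀ s i, ∃ a b : Fin 4, a ≠ b ∧
      (0 < p s → ∀ l, r s ⬝ᵥ e.f i l = (if a = l then 1 else 0) - (if b = l then 1 else 0)) := by
    intro s i
    by_cases hs : 0 < p s
    · obtain ⟨a, b, hab, h⟩ := Pool.Agent.Helper18.UBd.root_common e.Q e.hpd (e.f i0) (e.g i0) (e.f i) (e.g i) (e.hsb i0)
        (e.hsb i) (e.hob i0) (e.hob i) s (by rw [hpdef] at hs; simp only at hs; linarith)
      exact ⟨a, b, hab, fun _ => by rw [hr]; exact h⟩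
    · exact ⟨0, 1, by decide, fun h => absurd h hs⟩
  choose a b hab hroot using hex
  -- the coordinates
  obtain ⟨α, hα⟩ : ∃ α : Fin 6 → ι × Fin 4 → ℝ, α = fun s x => e.v x.1 x.2 ⬝ᵥ e.Q⁻¹ *ᵥ toR (r s) := ⟨_, rfl⟩
  have hmax : ∀ s i, ∃ k0, ∀ k, α s (i, k) ≤ α s (i, k0) := fun s i =>
    Finite.exists_max fun k => α s (i, k)
  have hmin : ∀ s i, ∃ k0, ∀ k, α s (i, k0) ≤ α s (i, k) := fun s i =>
    Finite.exists_min fun k => α s (i, k)
  choose kp hkp using hmax
  choose km hkm using hmin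
  obtain ⟨m, hm⟩ : ∃ m : ι × Fin 4 → ℝ, m = fun x => e.y x.1 := ⟨_, rfl⟩
  have hm0 : ∀ x, 0 ≤ m x := by
    intro x
    rw [hm]
    exact (e.ypos x.1).le
  obtain ⟨θ, hθ⟩ : ∃ θ : Fin 6 → ℝ, θ = fun s => ∑ i, e.y i * (tt (a s i) (b s i) (e.σ i) : ℝ) := ⟨_, rfl⟩
  have htt : ∀ s i, (0 : ℝ) ≤ (tt (a s i) (b s i) (e.σ i) : ℝ) ∧ (tt (a s i) (b s i) (e.σ i) : ℝ) ≤ 1 := by
    intro s i
    rcases tt_mem (a s i) (b s i) (hab s i) (e.σ i) with h | h <;> rw [h] <;> norm_num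
  have hθ0 : ∀ s, 0 ≤ θ s := by
    intro s
    rw [hθ]
    exact Finset.sum_nonneg fun i _ => mul_nonneg (e.ypos i).le (htt s i).1
  have hθ1 : ∀ s, θ s ≤ 1 := by
    intro s
    rw [hθ]
    simp only
    rw [← e.ysum]
    exact Finset.sum_le_sum fun i _ => mul_le_of_le_one_right (e.ypos i).le (htt s i).2
  obtain ⟨A, hA⟩ : ∃ A : Fin 6 → ℝ, A = fun s => ∑ x, m x * α s x ^ 2 := ⟨_, rfl⟩
  have hA0 : ∀ s, 0 ≤ A s := by
    intro s
    rw [hA]
    exact Finset.sum_nonneg fun x _ => mul_nonneg (hm0 x) (sq_nonneg _)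
  obtain ⟨w, hw⟩ : ∃ w : Fin 6 → Fin 3 → ℝ, w = fun s => e.Q⁻¹ *ᵥ toR (r s) := ⟨_, rfl⟩
  obtain ⟨B, hB⟩ : ∃ B : Fin 6 → ℝ, B = fun s => w s ⬝ᵥ w s := ⟨_, rfl⟩
  have hB0 : ∀ s, 0 ≤ B s := by
    intro s
    rw [hB]
    simp only [dotProduct]
    exact Finset.sum_nonneg fun j _ => mul_self_nonneg _
  obtain ⟨κ, hκ⟩ : ∃ κ : Fin 6 → ℝ, κ = fun s => toR (r s) ⬝ᵥ e.Q⁻¹ *ᵥ toR (r s) := ⟨_, rfl⟩
  have hκe : ∀ s, κ s = ε * B s + A s := by
    intro s
    rw [hκ, hB, hA, hw, hα, hm]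
    simp only
    rw [kappa_eq e (toR (r s)), Fintype.sum_prod_type]
    simp only [Finset.mul_sum]
  have hκs : ∑ s, p s * κ s = 3 := by
    rw [hκ]
    exact kappa_sum e.Q e.hpd p r hp
  have hκ1 : ∀ s, p s * κ s ≤ 1 := by
    intro s
    rw [hκ]
    exact kappa_le e.Q e.hpd p hp0 r hp s
  -- the normalisation
  obtain ⟨n, hn⟩ : ∃ n : Fin 6 → ℝ, n = fun s =>
      ∑ x : ι × Fin 4, m x * (etb (a s x.1) (b s x.1) (e.σ x.1) x.2 * α s x) := ⟨_, rfl⟩
  have hα0 : ∀ s i, ∑ k, α s (i, k) = 0 := by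
    intro s i
    rw [hα]
    simp only
    rw [← sum_dotProduct, e.hv0 i, zero_dotProduct]
  have hns : ∑ s, p s * n s = 1 := by
    rw [← norm_sum e p r hp]
    refine Finset.sum_congr rfl fun s _ => ?_
    rcases (hp0 s).eq_or_lt with hs | hs
    · rw [← hs, zero_mul, zero_mul]
    · congr 1
      rw [hn]
      simp only
      rw [Fintype.sum_prod_type]
      refine Finset.sum_congr rfl fun i _ => ?_
      rw [hm]
      simp only
      rw [← Finset.mul_sum]
      congr 1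
      have h1 : ∀ k, ((r s ⬝ᵥ chainP (e.f i) (e.z i) (e.σ i) k : ℤ) : ℝ) =
          ((r s ⬝ᵥ e.z i : ℤ) : ℝ) + (eta (a s i) (b s i) (e.σ i) k : ℝ) := by
        intro k
        rw [chain_val (e.f i) (e.z i) (e.σ i) (r s) (a s i) (b s i) (hroot s i hs) k]
        push_cast
        ring
      have h2 : ∀ k, (e.v i k ⬝ᵥ e.Q⁻¹ *ᵥ toR (r s)) = α s (i, k) := by
        intro k
        rw [hα]
      simp only [h1, h2]
      have h3 := hα0 s i
      unfold etb
      simp only [Fin.sum_univ_four] at h3 ⊢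
      linear_combination (-((eta (a s i) (b s i) (e.σ i) 0 : ℝ) + (eta (a s i) (b s i) (e.σ i) 1 : ℝ) +
        (eta (a s i) (b s i) (e.σ i) 2 : ℝ) + (eta (a s i) (b s i) (e.σ i) 3 : ℝ)) / 4 -
        ((r s ⬝ᵥ e.z i : ℤ) : ℝ)) * h3
  -- the estimate for one root
  have hone : ∀ s, p s * (W * n s) ≤
      (p s * A s) * ((1 / 2) * (1 + Real.sqrt ((3 + (if 0 < p s then θ s else 0)) / 2))) +
        (1 / 2) * D * δ * (p s * κ s) := by
    intro s
    rcases (hp0 s).eq_or_lt with hs | hs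
    · rw [← hs]
      simp
    rw [if_pos hs]
    obtain ⟨x, hx, x', hx', hlt⟩ := hW (r s) (hr0 s)
    obtain ⟨E, hE⟩ : ∃ E : ℝ, E = Real.sqrt ((3 + θ s) / 4) := ⟨_, rfl⟩
    have hE0 : 0 < E := by
      rw [hE]
      apply Real.sqrt_pos.mpr
      have := hθ0 s
      positivity
    have hE2 : E ^ 2 = (3 + θ s) / 4 := by
      rw [hE]
      apply Real.sq_sqrt
      have := hθ0 s
      positivity
    have hE' : Real.sqrt 2 * E = Real.sqrt ((3 + θ s) / 2) := by
      rw [hE, ← Real.sqrt_mul (by norm_num)]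
      congr 1
      ring
    have hηsq : ∑ x : ι × Fin 4, m x * etb (a s x.1) (b s x.1) (e.σ x.1) x.2 ^ 2 = (3 + θ s) / 4 := by
      rw [Fintype.sum_prod_type, hm, hθ]
      simp only
      simp only [← Finset.mul_sum, etb_sq]
      have h1 : ∀ i, e.y i * ((3 + (tt (a s i) (b s i) (e.σ i) : ℝ)) / 4) =
          (3 / 4) * e.y i + (1 / 4) * (e.y i * (tt (a s i) (b s i) (e.σ i) : ℝ)) := fun i => by ring
      simp only [h1]
      rw [Finset.sum_add_distrib, ← Finset.mul_sum, ← Finset.mul_sum, e.ysum]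
      ring
    have hρsq : ∑ x : ι × Fin 4, m x * (rho (kp s x.1) (km s x.1) x.2 : ℝ) ^ 2 ≤ 2 := by
      rw [Fintype.sum_prod_type, hm]
      simp only
      simp only [← Finset.mul_sum]
      have h1 : ∀ i, e.y i * ∑ k, (rho (kp s i) (km s i) k : ℝ) ^ 2 ≤ e.y i * 2 := by
        intro i
        refine mul_le_mul_of_nonneg_left ?_ (e.ypos i).le
        exact_mod_cast rho_sq (kp s i) (km s i)
      refine (Finset.sum_le_sum fun i _ => h1 i).trans ?_
      rw [← Finset.sum_mul, e.ysum]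
      norm_num
    have hρη : ∑ x : ι × Fin 4, m x * ((rho (kp s x.1) (km s x.1) x.2 : ℝ) *
        etb (a s x.1) (b s x.1) (e.σ x.1) x.2) ≤ 1 := by
      rw [Fintype.sum_prod_type, hm]
      simp only
      simp only [← Finset.mul_sum]
      have h1 : ∀ i, e.y i * ∑ k, (rho (kp s i) (km s i) k : ℝ) * etb (a s i) (b s i) (e.σ i) k
          ≤ e.y i * 1 := by
        intro i
        exact mul_le_mul_of_nonneg_left (rho_etb _ _ _ _ _) (e.ypos i).le
      refine (Finset.sum_le_sum fun i _ => h1 i).trans ?_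
      rw [← Finset.sum_mul, e.ysum]
      norm_num
    have hρα : ∑ x : ι × Fin 4, m x * ((rho (kp s x.1) (km s x.1) x.2 : ℝ) * α s x) =
        ∑ i, e.y i * (α s (i, kp s i) - α s (i, km s i)) := by
      rw [Fintype.sum_prod_type, hm]
      simp only
      refine Finset.sum_congr rfl fun i _ => ?_
      rw [← Finset.mul_sum, rho_sum (kp s i) (km s i) (fun k => α s (i, k))]
    -- the width
    have hwid := width_le e (toR (r s)) (kp s) (km s)
      (by
        intro i k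
        have := hkp s i k
        rw [hα] at this
        exact this)
      (by
        intro i k
        have := hkm s i k
        rw [hα] at this
        exact this) x x' hx hx'
    have hcs : (w s ⬝ᵥ (x - x')) ≤ Real.sqrt (B s) * D := by
      have h1 : (w s ⬝ᵥ (x - x')) ^ 2 ≤ B s * D ^ 2 := by
        have h2 : (w s ⬝ᵥ (x - x')) ^ 2 ≤ (w s ⬝ᵥ w s) * ((x - x') ⬝ᵥ (x - x')) := by
          have h3 := Finset.sum_mul_sq_le_sq_mul_sq Finset.univ (w s) (x - x')
          simp only [dotProduct]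
          simp only [← pow_two]
          exact h3
        refine h2.trans ?_
        have h4 : 0 ≤ w s ⬝ᵥ w s := by
          have := hB0 s
          rw [hB] at this
          exact this
        have h5 := mul_le_mul_of_nonneg_left (hKD x hx x' hx') h4
        rw [hB]
        exact h5
      have h6 : (w s ⬝ᵥ (x - x')) ^ 2 ≤ (Real.sqrt (B s) * D) ^ 2 := by
        rw [mul_pow, Real.sq_sqrt (hB0 s)]
        exact h1
      exact (le_abs_self _).trans (abs_le_of_sq_le_sq h6 (mul_nonneg (Real.sqrt_nonneg _) hD))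
    obtain ⟨er, her⟩ : ∃ er : ℝ, er = ε * (Real.sqrt (B s) * D) := ⟨_, rfl⟩
    have her0 : 0 ≤ er := by
      rw [her]
      have := Real.sqrt_nonneg (B s)
      positivity
    have hWe : W ≤ (∑ x : ι × Fin 4, m x * ((rho (kp s x.1) (km s x.1) x.2 : ℝ) * α s x)) + er := by
      rw [hρα, her]
      have h1 : ε * (w s ⬝ᵥ (x - x')) ≤ ε * (Real.sqrt (B s) * D) :=
        mul_le_mul_of_nonneg_left hcs hεpos.le
      have h2 : ∑ i, e.y i * (e.v i (kp s i) ⬝ᵥ e.Q⁻¹ *ᵥ toR (r s) - e.v i (km s i) ⬝ᵥ e.Q⁻¹ *ᵥ toR (r s)) =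
          ∑ i, e.y i * (α s (i, kp s i) - α s (i, km s i)) := by
        rw [hα]
      rw [h2] at hwid
      rw [hw] at h1
      simp only at h1
      linarith
    have hterm := term_le m (fun x : ι × Fin 4 => (rho (kp s x.1) (km s x.1) x.2 : ℝ))
      (fun x : ι × Fin 4 => etb (a s x.1) (b s x.1) (e.σ x.1) x.2) (α s) hm0 hE0 hW0 hρsq
      (by rw [hηsq, hE2]) hρη hWe her0
    have hnn : (∑ x : ι × Fin 4, m x * (etb (a s x.1) (b s x.1) (e.σ x.1) x.2 * α s x)) = n s := by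
      rw [hn]
    rw [hnn, hE'] at hterm
    have hAA : ∑ x, m x * α s x ^ 2 = A s := by rw [hA]
    rw [hAA] at hterm
    -- the error
    have hn2 : n s ^ 2 ≤ A s := by
      have h1 := wcs m (fun x : ι × Fin 4 => etb (a s x.1) (b s x.1) (e.σ x.1) x.2) (α s) hm0
      rw [hnn, hηsq, hAA] at h1
      refine h1.trans ?_
      have h2 : (3 + θ s) / 4 ≤ 1 := by
        have := hθ1 s
        linarith
      exact mul_le_of_le_one_left (hA0 s) h2
    have herr : er * |n s| ≤ (1 / 2) * D * δ * κ s := by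
      have h1 : Real.sqrt (B s) ^ 2 = B s := Real.sq_sqrt (hB0 s)
      have h2 : |n s| ^ 2 = n s ^ 2 := sq_abs _
      have h3 : 2 * (|n s| * (δ * Real.sqrt (B s))) ≤ A s + δ ^ 2 * B s := by
        nlinarith [sq_nonneg (|n s| - δ * Real.sqrt (B s))]
      have h4 : er * |n s| = (1 / 2) * D * δ * (2 * (|n s| * (δ * Real.sqrt (B s)))) := by
        rw [her, hε]
        ring
      rw [h4, hκe s, hε, add_comm]
      exact mul_le_mul_of_nonneg_left (by linarith) (by positivity)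
    have h5 : p s * (W * n s) ≤
        p s * ((1 / 2) * (1 + Real.sqrt ((3 + θ s) / 2)) * A s + (1 / 2) * D * δ * κ s) :=
      mul_le_mul_of_nonneg_left (by linarith) hs.le
    refine h5.trans (le_of_eq ?_)
    ring
  -- the sum
  have hsumW : W = ∑ s, p s * (W * n s) := by
    have h1 : ∑ s, p s * (W * n s) = W * ∑ s, p s * n s := by
      rw [Finset.mul_sum]
      exact Finset.sum_congr rfl fun s _ => by ring
    rw [h1, hns, mul_one]
  have hθs : ∑ s, (if 0 < p s then θ s else 0) ≤ 2 := by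
    rw [← Finset.sum_filter, hθ]
    rw [Finset.sum_comm]
    have h1 : ∀ i, ∑ s ∈ Finset.univ.filter (fun s => 0 < p s),
        e.y i * (tt (a s i) (b s i) (e.σ i) : ℝ) ≤ e.y i * 2 := by
      intro i
      rw [← Finset.mul_sum]
      refine mul_le_mul_of_nonneg_left ?_ (e.ypos i).le
      have h2 := tt_sum (e.f i0) (e.g i0) (e.f i) (e.g i) (e.hsb i0) (e.hsb i) (e.σ i)
        (Finset.univ.filter (fun s => 0 < p s)) (fun s => a s i) (fun s => b s i)
        (fun s _ => hab s i)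
        (by
          intro s hs l
          have := hroot s i (Finset.mem_filter.mp hs).2 l
          rw [hr] at this
          exact this)
      exact_mod_cast h2
    refine (Finset.sum_le_sum fun i _ => h1 i).trans ?_
    rw [← Finset.sum_mul, e.ysum]
    norm_num
  have hconc := concave_step (fun s => p s * A s) (fun s => if 0 < p s then θ s else 0)
    (fun s => mul_nonneg (hp0 s) (hA0 s))
    (by
      intro s
      have h1 := hκ1 s
      rw [hκe s] at h1
      have h2 : 0 ≤ p s * (ε * B s) := mul_nonneg (hp0 s) (mul_nonneg hεpos.le (hB0 s))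
      linarith)
    (by
      intro s
      split_ifs
      · exact hθ0 s
      · exact le_rfl)
    (by
      rw [← hκs]
      refine Finset.sum_le_sum fun s _ => ?_
      rw [hκe s]
      have h2 : 0 ≤ p s * (ε * B s) := mul_nonneg (hp0 s) (mul_nonneg hεpos.le (hB0 s))
      linarith)
    hθs
  rw [hsumW]
  refine (Finset.sum_le_sum fun s _ => hone s).trans ?_
  rw [Finset.sum_add_distrib, ← Finset.mul_sum, hκs]
  linarith

/-- **The universal bound.** -/
theorem universal (K : Set (Fin 3 → ℝ)) (hK : LFree K) (W : ℝ)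
    (hW : ∀ r : Fin 3 → ℤ, r ≠ 0 → ∃ x ∈ K, ∃ x' ∈ K, W < toR r ⬝ᵥ (x - x')) :
    W ≤ (6 + Real.sqrt 66) / 4 := by
  rcases lt_or_ge W 0 with hneg | hW0
  · have := Real.sqrt_nonneg 66
    linarith
  obtain ⟨R, hR⟩ := (Metric.isBounded_iff_subset_closedBall (0 : Fin 3 → ℝ)).mp hK.compact.isBounded
  obtain ⟨c, hc⟩ := hK.interior_nonempty
  have hR0 : 0 ≤ R := by
    have h1 := hR (interior_subset hc)
    rw [mem_closedBall_zero_iff] at h1
    exact (norm_nonneg _).trans h1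
  have hKD : ∀ x ∈ K, ∀ x' ∈ K, (x - x') ⬝ᵥ (x - x') ≤ (4 * R) ^ 2 := by
    intro x hx x' hx'
    have h1 := hR hx
    have h2 := hR hx'
    rw [mem_closedBall_zero_iff] at h1 h2
    have h3 : ∀ j, (x - x') j * (x - x') j ≤ (2 * R) ^ 2 := by
      intro j
      have h4 : |(x - x') j| ≤ 2 * R := by
        have h5 := (norm_le_pi_norm (x - x') j).trans (norm_sub_le x x')
        rw [Real.norm_eq_abs] at h5
        linarith
      rw [← sq]
      exact sq_le_sq' (by linarith [(abs_le.mp h4).1]) (abs_le.mp h4).2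
    simp only [dotProduct, Fin.sum_univ_three]
    have h6 := h3 0
    have h7 := h3 1
    have h8 := h3 2
    nlinarith
  have hc2 : (3 / 2) * (1 + Real.sqrt (11 / 6)) = (6 + Real.sqrt 66) / 4 := by
    have h1 : Real.sqrt (11 / 6) = Real.sqrt 66 / 6 := by
      rw [show (11 / 6 : ℝ) = 66 / 6 ^ 2 by norm_num, Real.sqrt_div (by norm_num),
        Real.sqrt_sq (by norm_num)]
    rw [h1]
    ring
  refine le_of_forall_pos_le_add fun τ hτ => ?_
  obtain ⟨δ, hδ⟩ : ∃ δ : ℝ, δ = τ / (1 + (3 / 2) * (4 * R)) := ⟨_, rfl⟩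
  have hden : 0 < 1 + (3 / 2) * (4 * R) := by positivity
  have hδ0 : 0 < δ := by rw [hδ]; positivity
  obtain ⟨ι, _, _, ⟨e⟩⟩ := Pool.Agent.Helper1.FX.exists_equi K hK (δ ^ 2) (by positivity)
  have h1 := main_eps hδ0 rfl (by positivity : (0 : ℝ) ≤ 4 * R) hKD e W hW0 hW
  rw [hc2] at h1
  refine h1.trans ?_
  have h2 : (3 / 2) * (4 * R) * δ ≤ τ := by
    rw [hδ, mul_div_assoc', div_le_iff₀ hden]
    nlinarith
  linarith

end Pool.Agent.Helper24.UB
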