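import Mathlib
import Pool.Agent.Helper24.UB.Final

/-! The universal bound: the lattice width is attained. -/

set_option autoImplicit false

namespace Pool.Agent.Helper24.UB

open Matrix Pool.Agent.Helper22.Sym
open Pool.Agent.Helper12.LW (LFree chainP)

/-- if all the integer widths are larger than `c` then they are uniformly larger than `c` -/
theorem width_gap (K : Set (Fin 3 → ℝ)) (hint : (interior K).Nonempty) (c : ℝ)
    (h : ∀ r : Fin 3 → ℤ, r ≠ 0 → ∃ x ∈ K, ∃ x' ∈ K, c < toR r ⬝ᵥ (x - x')) :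
    ∃ W : ℝ, c < W ∧ ∀ r : Fin 3 → ℤ, r ≠ 0 → ∃ x ∈ K, ∃ x' ∈ K, W < toR r ⬝ᵥ (x - x') := by
  classical
  obtain ⟨a, ha⟩ := hint
  obtain ⟨ρ, hρ, hball⟩ := Metric.isOpen_iff.mp isOpen_interior a ha
  obtain ⟨N, hN⟩ := exists_nat_gt ((c + 1) / ρ)
  have hN' : c + 1 < N * ρ := by rwa [div_lt_iff₀ hρ] at hN
  -- the large vectors
  have hbig : ∀ r : Fin 3 → ℤ, ∀ j : Fin 3, (N : ℤ) ≤ |r j| →
      ∃ x ∈ K, ∃ x' ∈ K, c + 1 < toR r ⬝ᵥ (x - x') := by
    intro r j hj
    obtain ⟨s, hs⟩ : ∃ s : ℝ, s = if 0 ≤ r j then 1 else -1 := ⟨_, rfl⟩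
    have hs1 : |s| = 1 := by
      rw [hs]
      split_ifs <;> simp
    have hsr : (r j : ℝ) * s = ((|r j| : ℤ) : ℝ) := by
      rw [hs]
      split_ifs with h0
      · rw [abs_of_nonneg h0, mul_one]
      · rw [abs_of_neg (not_le.mp h0)]
        push_cast
        ring
    have hmem : ∀ t : ℝ, |t| = 1 → a + Pi.single j (ρ / 2 * t) ∈ K := by
      intro t ht
      apply interior_subset
      apply hball
      rw [Metric.mem_ball, dist_eq_norm, add_sub_cancel_left]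
      rw [pi_norm_lt_iff hρ]
      intro i
      rw [Pi.single_apply]
      split_ifs
      · rw [Real.norm_eq_abs, abs_mul, ht, abs_of_pos (by positivity)]
        linarith
      · simpa using hρ
    refine ⟨_, hmem s hs1, _, hmem (-s) (by rw [abs_neg]; exact hs1), ?_⟩
    have h1 : (a + Pi.single j (ρ / 2 * s)) - (a + Pi.single j (ρ / 2 * (-s))) = Pi.single j (ρ * s) := by
      rw [add_sub_add_left_eq_sub, ← Pi.single_sub]
      congr 1
      ring
    rw [h1, dotProduct_single]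
    have h2 : toR r j * (ρ * s) = ρ * ((|r j| : ℤ) : ℝ) := by
      rw [← hsr]
      simp only [toR]
      ring
    rw [h2]
    have h3 : (N : ℝ) ≤ ((|r j| : ℤ) : ℝ) := by exact_mod_cast hj
    have h4 : (N : ℝ) * ρ ≤ ρ * ((|r j| : ℤ) : ℝ) := by
      rw [mul_comm]
      exact mul_le_mul_of_nonneg_left h3 hρ.le
    linarith
  -- the small vectors
  choose! X hX X' hX' hlt using h
  have hfin : ({r : Fin 3 → ℤ | ∀ j, |r j| < N} : Set (Fin 3 → ℤ)).Finite := by
    refine (Set.finite_Icc (fun _ : Fin 3 => -(N : ℤ)) (fun _ => (N : ℤ))).subset ?_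
    intro r hr
    exact ⟨fun j => (abs_lt.mp (hr j)).1.le, fun j => (abs_lt.mp (hr j)).2.le⟩
  obtain ⟨T, hT⟩ : ∃ T : Finset ℝ, T = insert (c + 1)
      ((hfin.toFinset.filter (fun r => r ≠ 0)).image fun r => toR r ⬝ᵥ (X r - X' r)) := ⟨_, rfl⟩
  have hTne : T.Nonempty := ⟨c + 1, by rw [hT]; exact Finset.mem_insert_self _ _⟩
  obtain ⟨μ, hμT, hμ⟩ := T.exists_min_image id hTne
  have hμc : c < μ := by
    rw [hT, Finset.mem_insert, Finset.mem_image] at hμT
    rcases hμT with h | ⟨r, hr, h⟩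
    · rw [h]; linarith
    · rw [← h]
      exact hlt r (Finset.mem_filter.mp hr).2
  refine ⟨(c + μ) / 2, by linarith, fun r hr => ?_⟩
  by_cases hsm : ∀ j, |r j| < N
  · refine ⟨X r, hX r hr, X' r, hX' r hr, ?_⟩
    have h1 := hμ (toR r ⬝ᵥ (X r - X' r)) (by
      rw [hT, Finset.mem_insert, Finset.mem_image]
      exact Or.inr ⟨r, Finset.mem_filter.mpr ⟨hfin.mem_toFinset.mpr hsm, hr⟩, rfl⟩)
    simp only [id] at h1
    linarith
  · push Not at hsm
    obtain ⟨j, hj⟩ := hsm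
    obtain ⟨x, hx, x', hx', h1⟩ := hbig r j hj
    refine ⟨x, hx, x', hx', ?_⟩
    have h2 := hμ (c + 1) (by rw [hT]; exact Finset.mem_insert_self _ _)
    simp only [id] at h2
    linarith

/-- **The universal bound**, in terms of an integer direction. -/
theorem exists_direction (K : Set (Fin 3 → ℝ)) (hK : IsCompact K) (hcv : Convex ℝ K)
    (hint : (interior K).Nonempty) (hfree : ∀ z : Fin 3 → ℤ, (fun i => (z i : ℝ)) ∉ interior K) :
    ∃ y : Fin 3 → ℤ, y ≠ 0 ∧ ∀ x ∈ K, ∀ x' ∈ K,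
      ∑ i, (x i - x' i) * (y i : ℝ) ≤ (6 + Real.sqrt 66) / 4 := by
  by_contra hcon
  push Not at hcon
  have h1 : ∀ r : Fin 3 → ℤ, r ≠ 0 → ∃ x ∈ K, ∃ x' ∈ K, (6 + Real.sqrt 66) / 4 < toR r ⬝ᵥ (x - x') := by
    intro r hr
    obtain ⟨x, hx, x', hx', h⟩ := hcon r hr
    refine ⟨x, hx, x', hx', ?_⟩
    have h2 : toR r ⬝ᵥ (x - x') = ∑ i, (x i - x' i) * (r i : ℝ) := by
      simp only [dotProduct, toR, Pi.sub_apply]
      exact Finset.sum_congr rfl fun i _ => mul_comm _ _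
    rw [h2]
    exact h
  obtain ⟨W, hW, h2⟩ := width_gap K hint _ h1
  have h3 := universal K ⟨hK, hcv, hint, hfree⟩ W h2
  linarith

end Pool.Agent.Helper24.UB
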