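import Mathlib
import Pool.Agent.Helper24.UB.AsFinal
import Pool.Agent.Helper24.UB.Last
import Pool.Agent.Helper24.UB.AsExist

/-! Lattice width and asymmetry: limit and the final form. -/

set_option autoImplicit false

namespace Pool.Agent.Helper24.UB

open Matrix Pool.Agent.Helper22.Sym
open Pool.Agent.Helper12.LW (LFree chainP Sep4)

/-- the bound for a body with weights of sum at most `Y` -/
theorem cap_bound (K : Set (Fin 3 → ℝ)) (hK : LFree K) (Y : ℝ) (hY : 2 ≤ Y)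
    (hcap : ∀ (P : Fin 4 → Fin 3 → ℤ) (v : Fin 4 → Fin 3 → ℝ), Sep4 K P v → ∃ κ, Capped K Y P v κ)
    (W : ℝ) (hW : ∀ r : Fin 3 → ℤ, r ≠ 0 → ∃ x ∈ K, ∃ x' ∈ K, W < toR r ⬝ᵥ (x - x')) :
    W ≤ 3 / 2 + Real.sqrt (6 * (1 + Y / 2 - 1 / Y)) / 2 := by
  rcases lt_or_ge W 0 with hneg | hW0
  · have := Real.sqrt_nonneg (6 * (1 + Y / 2 - 1 / Y))
    linarith
  have hYpos : 0 < Y := by linarith
  obtain ⟨x, hx⟩ : ∃ x : ℝ, x = 1 + Y / 2 - 1 / Y := ⟨_, rfl⟩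
  have hx0 : 0 < x := by
    have h1 : 1 / Y ≤ 1 := by
      rw [div_le_one hYpos]
      linarith
    rw [hx]
    linarith
  rw [← hx]
  obtain ⟨R0, hR0⟩ : ∃ R0 : ℝ, R0 = Real.sqrt (6 * x) := ⟨_, rfl⟩
  have hRp : 0 < R0 := by
    rw [hR0]
    exact Real.sqrt_pos.mpr (by positivity)
  have hR2 : R0 ^ 2 = 6 * x := by
    rw [hR0]
    exact Real.sq_sqrt (by positivity)
  rw [← hR0]
  obtain ⟨R, hR⟩ := (Metric.isBounded_iff_subset_closedBall (0 : Fin 3 → ℝ)).mp hK.compact.isBounded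
  obtain ⟨c, hc⟩ := hK.interior_nonempty
  have hRn : 0 ≤ R := by
    have h1 := hR (interior_subset hc)
    rw [mem_closedBall_zero_iff] at h1
    exact (norm_nonneg _).trans h1
  have hKD : ∀ x ∈ K, ∀ x' ∈ K, (x - x') ⬝ᵥ (x - x') ≤ (4 * R) ^ 2 := by
    intro x hx x' hx'
    have h1 := hR hx
    have h2 := hR hx'
    rw [mem_closedBall_zero_iff] at h1 h2
    have h3 : ∀ j, (x - x') j * (x - x') j ≤ (2 * R) ^ 2 := by
      intro j
      have h4 : |(x - x') j| ≤ 2 * R := by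
        have h5 := (norm_le_pi_norm (x - x') j).trans (norm_sub_le x x')
        rw [Real.norm_eq_abs] at h5
        linarith
      rw [← sq]
      exact sq_le_sq' (by linarith [(abs_le.mp h4).1]) (abs_le.mp h4).2
    simp only [dotProduct, Fin.sum_univ_three]
    have h6 := h3 0
    have h7 := h3 1
    have h8 := h3 2
    nlinarith
  refine le_of_forall_pos_le_add fun τ hτ => ?_
  obtain ⟨T, hT⟩ : ∃ T : ℝ, T = R0 / x := ⟨_, rfl⟩
  have hT0 : 0 < T := by rw [hT]; positivity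
  obtain ⟨CE, hCE⟩ : ∃ CE : ℝ, CE = 1 + 2 / T + Y := ⟨_, rfl⟩
  have hCE0 : 0 < CE := by rw [hCE]; positivity
  obtain ⟨δ, hδ⟩ : ∃ δ : ℝ, δ = τ / (1 + (3 / 2) * (4 * R) * CE) := ⟨_, rfl⟩
  have hden : 0 < 1 + (3 / 2) * (4 * R) * CE := by positivity
  have hδ0 : 0 < δ := by rw [hδ]; positivity
  obtain ⟨ι, _, _, ⟨e⟩⟩ := exists_equiK K hK Y hcap (δ ^ 2) (by positivity)
  have h1 := as_eps hδ0 rfl (by positivity : (0 : ℝ) ≤ 4 * R) hY hT0 hKD e W hW0 hW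
  rw [← hx, ← hCE] at h1
  have h3 : 6 / T = R0 := by
    rw [hT]
    field_simp
    linarith
  have h4 : T * x = R0 := by
    rw [hT]
    field_simp
  rw [h3, h4] at h1
  have h2 : (3 / 2) * (4 * R) * δ * CE ≤ τ := by
    rw [hδ]
    have h5 : (3 / 2) * (4 * R) * (τ / (1 + (3 / 2) * (4 * R) * CE)) * CE =
        ((3 / 2) * (4 * R) * CE) * τ / (1 + (3 / 2) * (4 * R) * CE) := by ring
    rw [h5, div_le_iff₀ hden]
    nlinarith
  linarith

/-- **The bound for bodies of asymmetry at most `s`.** -/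
theorem asym_bound (K : Set (Fin 3 → ℝ)) (hK : LFree K) (c : Fin 3 → ℝ) (s : ℝ) (hs : 1 ≤ s)
    (hc : ∀ x ∈ K, c - (1 / s) • (x - c) ∈ K) (W : ℝ)
    (hW : ∀ r : Fin 3 → ℤ, r ≠ 0 → ∃ x ∈ K, ∃ x' ∈ K, W < toR r ⬝ᵥ (x - x')) :
    W ≤ 3 / 2 + Real.sqrt (3 * (s ^ 2 + 4 * s + 1) / (1 + s)) / 2 := by
  have h1 := cap_bound K hK (1 + s) (by linarith) (fun P v h => exists_cap K hK c s hs hc P v h) W hW
  have h2 : 6 * (1 + (1 + s) / 2 - 1 / (1 + s)) = 3 * (s ^ 2 + 4 * s + 1) / (1 + s) := by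
    have : (1 + s) ≠ 0 := by positivity
    field_simp
    ring
  rw [h2] at h1
  exact h1

/-- the bound in terms of an integer direction -/
theorem asym_direction (K : Set (Fin 3 → ℝ)) (hK : IsCompact K) (hcv : Convex ℝ K)
    (hint : (interior K).Nonempty) (hfree : ∀ z : Fin 3 → ℤ, (fun i => (z i : ℝ)) ∉ interior K)
    (c : Fin 3 → ℝ) (s : ℝ) (hs : 1 ≤ s) (hc : ∀ x ∈ K, c - (1 / s) • (x - c) ∈ K) :
    ∃ y : Fin 3 → ℤ, y ≠ 0 ∧ ∀ x ∈ K, ∀ x' ∈ K,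
      ∑ i, (x i - x' i) * (y i : ℝ) ≤ 3 / 2 + Real.sqrt (3 * (s ^ 2 + 4 * s + 1) / (1 + s)) / 2 := by
  by_contra hcon
  push Not at hcon
  have h1 : ∀ r : Fin 3 → ℤ, r ≠ 0 → ∃ x ∈ K, ∃ x' ∈ K,
      3 / 2 + Real.sqrt (3 * (s ^ 2 + 4 * s + 1) / (1 + s)) / 2 < toR r ⬝ᵥ (x - x') := by
    intro r hr
    obtain ⟨x, hx, x', hx', h⟩ := hcon r hr
    refine ⟨x, hx, x', hx', ?_⟩
    have h2 : toR r ⬝ᵥ (x - x') = ∑ i, (x i - x' i) * (r i : ℝ) := by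
      simp only [dotProduct, toR, Pi.sub_apply]
      exact Finset.sum_congr rfl fun i _ => mul_comm _ _
    rw [h2]
    exact h
  obtain ⟨W, hW, h2⟩ := width_gap K hint _ h1
  have h3 := asym_bound K ⟨hK, hcv, hint, hfree⟩ c s hs hc W h2
  linarith

/-- the value `2 + √2` up to asymmetry `2.463` -/
theorem value_le (s : ℝ) (hs : 1 ≤ s) (hs' : s ≤ 2463 / 1000) :
    3 / 2 + Real.sqrt (3 * (s ^ 2 + 4 * s + 1) / (1 + s)) / 2 ≤ 2 + Real.sqrt 2 := by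
  have h2 : (14141 / 10000 : ℝ) ≤ Real.sqrt 2 := by
    rw [Real.le_sqrt (by norm_num) (by norm_num)]
    norm_num
  have h22 : Real.sqrt 2 ^ 2 = 2 := Real.sq_sqrt (by norm_num)
  have h3 : Real.sqrt (3 * (s ^ 2 + 4 * s + 1) / (1 + s)) ≤ 1 + 2 * Real.sqrt 2 := by
    rw [Real.sqrt_le_left (by positivity)]
    have h4 : (1 + 2 * Real.sqrt 2) ^ 2 = 9 + 4 * Real.sqrt 2 := by
      have : (1 + 2 * Real.sqrt 2) ^ 2 = 1 + 4 * Real.sqrt 2 + 4 * Real.sqrt 2 ^ 2 := by ring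
      rw [this, h22]
      ring
    rw [h4, div_le_iff₀ (by positivity)]
    have h5 : 0 ≤ (Real.sqrt 2 - 14141 / 10000) * (1 + s) := mul_nonneg (by linarith) (by linarith)
    have h6 : 0 ≤ (2463 / 1000 - s) * (s - 1) := mul_nonneg (by linarith) (by linarith)
    nlinarith
  linarith

end Pool.Agent.Helper24.UB
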