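import Mathlib

/-! Lattice width and asymmetry, general weights: the grid of caps `1 - n k / 200`, `∑ n k = 65`. -/

set_option autoImplicit false

namespace Pool.Agent.Helper24.UB

/-- ten million times the weight of the cap `1 - n / 200`, rounded up -/
def uN (n : ℕ) : ℕ := (10000000 * (200000 - 1000 * n)) / (200000 + 926 * n) + 1

/-- the parallel sum of `q` and `U - q`, rounded up -/
def EN (U q : ℕ) : ℕ := (q * (U - q)) / U + 1

/-- the cost of one index -/
def mN (U a : ℕ) : ℕ := 39 * EN U (uN a) + 2500000 * (200 - a)

/-- the cost test for one system of caps -/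
def okN (a b c d : ℕ) : Bool :=
  let U := uN a + uN b + uN c + uN d
  let A := 39 * max (EN U (uN a + uN b)) (max (EN U (uN a + uN c)) (EN U (uN a + uN d))) + 500000000
  let m := max (max (mN U a) (mN U b)) (max (mN U c) (mN U d))
  Nat.ble (m + 2 * A + 961538462) 3414213000 && Nat.ble m A

/-- the test for all sorted systems with sum `65` -/
def okAll : Bool :=
  (List.range 66).all fun a => (List.range 66).all fun b => (List.range 66).all fun c =>
    (Nat.ble a b && Nat.ble b c && Nat.ble (a + b + c + c) 65).rec true (okN a b c (65 - a - b - c))

theorem okAll_true : okAll = true := by decide +kernel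

end Pool.Agent.Helper24.UB
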