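import Mathlib
import Pool.Agent.Helper24.UB.Defs

/-!
# Lattice width and asymmetry: systems with general weights

Definitions for the bound `2 + √2` for bodies of asymmetry at most `2.66`.
-/

set_option autoImplicit false

namespace Pool.Agent.Helper24.UB

open Matrix Pool.Agent.Helper22.Sym
open Pool.Agent.Helper12.LW (LFree chainP)

/-- Weights `u k > 0` for a system `v` of separators of `K`, with cost at most `C` for the parameter `T`. -/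
structure Wt (K : Set (Fin 3 → ℝ)) (T C : ℝ) (v : Fin 4 → Fin 3 → ℝ) (u : Fin 4 → ℝ) : Prop where
  pos : ∀ k, 0 < u k
  sq : ∀ x ∈ K, ∀ x' ∈ K, ∑ k, (v k ⬝ᵥ (x - x')) ^ 2 / u k ≤ 2
  cost : ∃ m a : ℝ, 0 ≤ m ∧ m ≤ a ∧ m + 2 * a ≤ C ∧ ∀ (σ : Equiv.Perm (Fin 3)) (p q : Fin 4), p ≠ q →
    ∃ t : ℝ, ∀ x ∈ K, ∀ x' ∈ K,
      T * ∑ k, u k * ((eta p q σ k : ℝ) - t) ^ 2 + 2 * ∑ k, (v k ⬝ᵥ (x - x')) * (eta p q σ k : ℝ) +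
        (∑ k, (v k ⬝ᵥ (x - x')) ^ 2 / u k) / T ≤ m + (tt p q σ : ℝ) * (a - m)

/-- An equilibrium of `K` with parameter `ε` and weights of cost at most `C`. -/
structure EquiU (K : Set (Fin 3 → ℝ)) (ε T C : ℝ) (ι : Type) [Fintype ι] where
  y : ι → ℝ
  f : ι → Fin 4 → Fin 3 → ℤ
  g : ι → Fin 4 → Fin 3 → ℤ
  z : ι → Fin 3 → ℤ
  σ : ι → Equiv.Perm (Fin 3)
  v : ι → Fin 4 → Fin 3 → ℝ
  u : ι → Fin 4 → ℝ
  Q : Matrix (Fin 3) (Fin 3) ℝ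
  ypos : ∀ i, 0 < y i
  ysum : ∑ i, y i = 1
  hsb : ∀ i, Superb (f i) (g i)
  hv0 : ∀ i, ∑ k, v i k = 0
  hv1 : ∀ i, ∑ k, v i k ⬝ᵥ toR (chainP (f i) (z i) (σ i) k) = 1
  hwt : ∀ i, Wt K T C (v i) (u i)
  hpd : Q.PosDef
  hQ : ∀ x w : Fin 3 → ℝ,
    x ⬝ᵥ Q *ᵥ w = ε * (x ⬝ᵥ w) + ∑ i, y i * ∑ k, (v i k ⬝ᵥ x) * (v i k ⬝ᵥ w) / u i k
  hob : ∀ i a b, a ≠ b → bil Q (f i a) (f i b) ≤ 0

end Pool.Agent.Helper24.UB
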