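import Mathlib
import Pool.Agent.Helper24.UB.WtDefs
import Pool.Agent.Helper73.FX.EtaB

/-! Lattice width and asymmetry, general weights: the weights and the cost of one system. -/

set_option autoImplicit false

namespace Pool.Agent.Helper24.UB

/-- sums of squares in a truncated simplex -/
theorem weight_sq (L : ℝ) (hL0 : 0 ≤ L) (hL1 : L < 1) (δ x : Fin 4 → ℝ) (hδ : ∀ k, 0 ≤ δ k)
    (hpair : ∀ i j, i ≠ j → (1 + L) * (δ i * δ j) ≤ 1 - L) (hx0 : ∀ k, 0 ≤ x k)
    (hx1 : ∀ k, x k * (1 + δ k) ≤ 1) (hsum : ∑ k, x k = 1) :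
    ∑ k, x k ^ 2 * (1 + (1 + L) * δ k) ≤ 1 := by
  have hterm : ∑ k, x k * (1 - (1 + (1 + L) * δ k) * x k) =
      (∑ k, x k) - ∑ k, x k ^ 2 * (1 + (1 + L) * δ k) := by
    rw [← Finset.sum_sub_distrib]
    exact Finset.sum_congr rfl fun k _ => by ring
  rw [hsum] at hterm
  suffices h : 0 ≤ ∑ k, x k * (1 - (1 + (1 + L) * δ k) * x k) by linarith
  by_cases hall : ∀ k, 0 ≤ x k * (1 - (1 + (1 + L) * δ k) * x k)
  · exact Finset.sum_nonneg fun k _ => hall k
  push Not at hall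
  obtain ⟨i, hi⟩ := hall
  have hxi : 0 < x i := by
    rcases (hx0 i).eq_or_lt with h | h
    · rw [← h] at hi
      simp at hi
    · exact h
  obtain ⟨m, hm⟩ : ∃ m : ℝ, m = 1 - x i := ⟨_, rfl⟩
  obtain ⟨z, hz⟩ : ∃ z : ℝ, z = δ i * x i := ⟨_, rfl⟩
  have hmz : z ≤ m := by
    have := hx1 i
    rw [hm, hz]
    linarith
  have hi2 : 1 - (1 + (1 + L) * δ i) * x i < 0 := by
    by_contra hcon
    push Not at hcon
    exact absurd (mul_nonneg hxi.le hcon) (not_le.mpr hi)
  have hi3 : m < (1 + L) * z := by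
    rw [hm, hz]
    linarith
  have hz0 : 0 < z := by
    by_contra hcon
    push Not at hcon
    have h1 : (1 + L) * z ≤ 1 * z := by nlinarith
    linarith
  have hδi : 0 < δ i := by
    by_contra hcon
    push Not at hcon
    have h1 : δ i * x i ≤ 0 := mul_nonpos_of_nonpos_of_nonneg hcon hxi.le
    linarith
  have hrest : ∑ k ∈ Finset.univ.erase i, x k = m := by
    have h1 := Finset.add_sum_erase Finset.univ x (Finset.mem_univ i)
    rw [hm]
    linarith
  have hm0 : 0 ≤ m := by linarith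
  have hle : ∀ k ∈ Finset.univ.erase i, x k ≤ m := by
    intro k hk
    rw [← hrest]
    exact Finset.single_le_sum (f := x) (fun j _ => hx0 j) hk
  have h2 : m * (z - (1 - L) * m) ≤
      δ i * ∑ k ∈ Finset.univ.erase i, x k * (1 - (1 + (1 + L) * δ k) * x k) := by
    have hs : ∑ k ∈ Finset.univ.erase i, x k * (z - (1 - L) * m) = m * (z - (1 - L) * m) := by
      rw [← Finset.sum_mul, hrest]
    rw [← hs, Finset.mul_sum]
    refine Finset.sum_le_sum fun k hk => ?_
    have hki : k ≠ i := Finset.ne_of_mem_erase hk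
    have h3 := hle k hk
    have h4 := hx0 k
    have h5 := hpair i k hki.symm
    have h6 : z - (1 - L) * m ≤ δ i * (1 - (1 + (1 + L) * δ k) * x k) := by
      have h7 : (1 + (1 + L) * δ k) * x k ≤ (1 + (1 + L) * δ k) * m := by
        apply mul_le_mul_of_nonneg_left h3
        have := mul_nonneg (by linarith : (0 : ℝ) ≤ 1 + L) (hδ k)
        linarith
      have h8 : (1 + L) * (δ i * δ k) * m ≤ (1 - L) * m := mul_le_mul_of_nonneg_right h5 hm0
      have h9 : δ i * (1 - (1 + (1 + L) * δ k) * m) ≤ δ i * (1 - (1 + (1 + L) * δ k) * x k) :=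
        mul_le_mul_of_nonneg_left (by linarith) hδi.le
      have h10 : δ i * (1 - (1 + (1 + L) * δ k) * m) = z - (1 + L) * (δ i * δ k) * m := by
        rw [hz, hm]
        ring
      linarith
    have h11 := mul_le_mul_of_nonneg_left h6 h4
    linarith
  have h12 : δ i * (x i * (1 - (1 + (1 + L) * δ i) * x i)) = z * (m - (1 + L) * z) := by
    rw [hz, hm]
    ring
  have h13 : 0 ≤ δ i * ∑ k, x k * (1 - (1 + (1 + L) * δ k) * x k) := by
    rw [← Finset.add_sum_erase Finset.univ _ (Finset.mem_univ i), mul_add, h12]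
    have h14 : 0 ≤ (m - z) * ((1 + L) * z - (1 - L) * m) := by
      apply mul_nonneg (by linarith)
      have : (1 - L) * m ≤ m := by nlinarith
      linarith
    nlinarith
  by_contra hcon
  push Not at hcon
  exact absurd h13 (not_le.mpr (mul_neg_of_pos_of_neg hδi hcon))

/-- the cost of one root for one system with weights `u` and caps `κ` -/
theorem cost_root (a b : Fin 4) (hab : a ≠ b) (σ : Equiv.Perm (Fin 3)) (u κ : Fin 4 → ℝ) (T m A : ℝ)
    (hu : ∀ k, 0 < u k) (hT : 0 < T)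
    (h13 : ∀ k, T * (u k - u k ^ 2 / ∑ l, u l) + 2 * κ k + 2 / T ≤ m)
    (h22 : ∀ k l, k ≠ l → T * ((u k + u l) - (u k + u l) ^ 2 / ∑ l, u l) + 2 + 2 / T ≤ A) :
    ∃ t : ℝ, ∀ ρ : Fin 4 → ℝ, ∑ k, ρ k = 0 → (∀ k, |ρ k| ≤ κ k) → ∑ k, |ρ k| ≤ 2 →
      ∑ k, ρ k ^ 2 / u k ≤ 2 →
      T * ∑ k, u k * ((eta a b σ k : ℝ) - t) ^ 2 + 2 * ∑ k, ρ k * (eta a b σ k : ℝ) +
        (∑ k, ρ k ^ 2 / u k) / T ≤ m + (tt a b σ : ℝ) * (A - m) := by
  have hup : 0 < ∑ k, u k := Finset.sum_pos (fun k _ => hu k) Finset.univ_nonempty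
  -- one index differs
  have case0 : ∀ (kc k0 : Fin 4) (s : ℝ), s ^ 2 = 1 → tt a b σ = 0 →
      (∀ k, (eta a b σ k : ℝ) = (eta a b σ kc : ℝ) + s * (if k = k0 then 1 else 0)) →
      ∃ t : ℝ, ∀ ρ : Fin 4 → ℝ, ∑ k, ρ k = 0 → (∀ k, |ρ k| ≤ κ k) → ∑ k, |ρ k| ≤ 2 →
      ∑ k, ρ k ^ 2 / u k ≤ 2 →
      T * ∑ k, u k * ((eta a b σ k : ℝ) - t) ^ 2 + 2 * ∑ k, ρ k * (eta a b σ k : ℝ) +
        (∑ k, ρ k ^ 2 / u k) / T ≤ m + (tt a b σ : ℝ) * (A - m) := by
    intro kc k0 s hs htt he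
    set x : Fin 4 → ℝ := fun k => if k = k0 then 1 else 0 with hxd
    have hx : ∀ k, x k = 0 ∨ x k = 1 := fun k => by
      by_cases h : k = k0
      · right; simp [hxd, h]
      · left; simp [hxd, h]
    have hq : ∑ l, u l * x l = u k0 := by simp [hxd]
    have hv := Pool.Agent.Helper73.FX.var_ind u x hx hup (eta a b σ kc) s hs
    refine ⟨(eta a b σ kc : ℝ) + s * ((∑ l, u l * x l) / ∑ l, u l), fun ρ h0 hκ h2 hR => ?_⟩
    have h5 : ∑ k, u k * ((eta a b σ k : ℝ) -
        ((eta a b σ kc : ℝ) + s * ((∑ l, u l * x l) / ∑ l, u l))) ^ 2 =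
        u k0 - u k0 ^ 2 / ∑ l, u l := by
      rw [← hq, ← hv]
      exact Finset.sum_congr rfl fun k _ => by rw [he k]
    have h6 : ∑ k, ρ k * (eta a b σ k : ℝ) = s * ρ k0 := by
      have : ∀ k, ρ k * (eta a b σ k : ℝ) = (eta a b σ kc : ℝ) * ρ k + s * (ρ k * x k) := fun k => by
        rw [he k]; ring
      rw [Finset.sum_congr rfl fun k _ => this k, Finset.sum_add_distrib, ← Finset.mul_sum, ← Finset.mul_sum, h0]
      simp [hxd]
    rw [h5, h6, htt]
    have h7 : s * ρ k0 ≤ κ k0 := by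
      have h8 : |s| = 1 := by
        have : |s| ^ 2 = 1 := by rw [sq_abs]; exact hs
        nlinarith [abs_nonneg s]
      calc s * ρ k0 ≤ |s * ρ k0| := le_abs_self _
        _ = |ρ k0| := by rw [abs_mul, h8, one_mul]
        _ ≤ κ k0 := hκ k0
    have h8 : (∑ k, ρ k ^ 2 / u k) / T ≤ 2 / T := div_le_div_of_nonneg_right hR hT.le
    have h9 := h13 k0
    push_cast
    linarith
  rcases Pool.Agent.Helper73.FX.eta_shape a b hab σ with ⟨htt, kc, k0, h | h⟩ | ⟨htt, kc, k0, k1, hne, h⟩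
  · refine case0 kc k0 1 (by norm_num) htt fun k => ?_
    rw [h k]; push_cast; ring
  · refine case0 kc k0 (-1) (by norm_num) htt fun k => ?_
    rw [h k]; push_cast; ring
  · set x : Fin 4 → ℝ := fun k => if k = k0 ∨ k = k1 then 1 else 0 with hxd
    have hx : ∀ k, x k = 0 ∨ x k = 1 := fun k => by
      by_cases h : k = k0 ∨ k = k1
      · right; simp [hxd, h]
      · left; simp [hxd, h]
    have he : ∀ k, (eta a b σ k : ℝ) = (eta a b σ kc : ℝ) + 1 * x k := fun k => by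
      rw [h k, hxd]; push_cast; ring
    have hq : ∑ l, u l * x l = u k0 + u k1 := by
      have h1 : ∀ l, u l * x l = (if l = k0 then u l else 0) + (if l = k1 then u l else 0) := by
        intro l
        rw [hxd]
        simp only
        by_cases h2 : l = k0
        · have h3 : l ≠ k1 := by rw [h2]; exact hne
          simp [h2, hne]
        · by_cases h3 : l = k1
          · simp [h3, hne.symm]
          · simp [h2, h3]
      rw [Finset.sum_congr rfl fun l _ => h1 l, Finset.sum_add_distrib]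
      simp
    have hv := Pool.Agent.Helper73.FX.var_ind u x hx hup (eta a b σ kc) 1 (by norm_num)
    refine ⟨(eta a b σ kc : ℝ) + 1 * ((∑ l, u l * x l) / ∑ l, u l), fun ρ h0 hκ h2 hR => ?_⟩
    have h5 : ∑ k, u k * ((eta a b σ k : ℝ) -
        ((eta a b σ kc : ℝ) + 1 * ((∑ l, u l * x l) / ∑ l, u l))) ^ 2 =
        (u k0 + u k1) - (u k0 + u k1) ^ 2 / ∑ l, u l := by
      rw [← hq, ← hv]
      exact Finset.sum_congr rfl fun k _ => by rw [he k]
    have h6 : ∑ k, ρ k * (eta a b σ k : ℝ) = ∑ k, ρ k * x k := by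
      have : ∀ k, ρ k * (eta a b σ k : ℝ) = (eta a b σ kc : ℝ) * ρ k + ρ k * x k := fun k => by
        rw [he k]; ring
      rw [Finset.sum_congr rfl fun k _ => this k, Finset.sum_add_distrib, ← Finset.mul_sum, h0]
      ring
    rw [h5, h6, htt]
    have h7 := Pool.Agent.Helper73.FX.bal_ind ρ x hx h0 h2
    have h8 : (∑ k, ρ k ^ 2 / u k) / T ≤ 2 / T := div_le_div_of_nonneg_right hR hT.le
    have h9 := h22 k0 k1 hne
    push_cast
    linarith

end Pool.Agent.Helper24.UB
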