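import Mathlib
import Pool.Agent.Helper24.UB.WtM
import Pool.Agent.Helper24.UB.WtGrid
import Pool.Agent.Helper24.UB.AsExist

/-! Lattice width and asymmetry, general weights: weights for bodies of asymmetry at most `2.66`. -/

set_option autoImplicit false

namespace Pool.Agent.Helper24.UB

open Matrix Pool.Agent.Helper22.Sym
open Pool.Agent.Helper12.LW (LFree chainP Sep4)
open Pool.Agent.Helper1.FX (toR_same)

/-- the weight of a cap -/
noncomputable def uR (n : ℕ) : ℝ := (uN n : ℝ) / 10000000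

theorem uN_spec (n : ℕ) : 10000000 * (200000 - 1000 * n) < (200000 + 926 * n) * uN n := by
  unfold uN
  exact Nat.lt_mul_div_succ _ (by omega)

theorem uR_pos (n : ℕ) : 0 < uR n := by
  unfold uR uN
  positivity

theorem uR_ge (n : ℕ) (hn : n ≤ 65) :
    1 / uR n ≤ 1 + (1 + 926 / 1000) * ((n : ℝ) / (200 - n)) := by
  have h1 := uN_spec n
  have hn' : (n : ℝ) ≤ 65 := by exact_mod_cast hn
  have h2 : (10000000 : ℝ) * (200000 - 1000 * n) < (200000 + 926 * n) * uN n := by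
    have h3 : ((10000000 * (200000 - 1000 * n) : ℕ) : ℝ) < (((200000 + 926 * n) * uN n : ℕ) : ℝ) := by
      exact_mod_cast h1
    have h4 : ((200000 - 1000 * n : ℕ) : ℝ) = 200000 - 1000 * (n : ℝ) := by
      rw [Nat.cast_sub (by omega)]
      push_cast
      ring
    rw [Nat.cast_mul, h4] at h3
    push_cast at h3
    exact h3
  have h5 : (0 : ℝ) < 200 - n := by linarith
  have hu : 0 < (uN n : ℝ) := by
    have := uR_pos n
    unfold uR at this
    by_contra hcon
    push Not at hcon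
    have h6 : (uN n : ℝ) / 10000000 ≤ 0 := div_nonpos_of_nonpos_of_nonneg hcon (by norm_num)
    linarith
  have h7 : 1 + (1 + 926 / 1000) * ((n : ℝ) / (200 - n)) = (200000 + 926 * n) / (1000 * (200 - n)) := by
    field_simp
    ring
  rw [h7, uR, one_div_div, div_le_div_iff₀ hu (by positivity)]
  linarith

theorem EN_spec (U q : ℕ) (hU : 0 < U) (hq : q ≤ U) :
    (q : ℝ) - (q : ℝ) ^ 2 / U ≤ EN U q := by
  have h1 : q * (U - q) < U * EN U q := by
    unfold EN
    exact Nat.lt_mul_div_succ _ hU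
  have h2 : (q : ℝ) * (U - q) < U * EN U q := by
    have h3 : ((q * (U - q) : ℕ) : ℝ) < ((U * EN U q : ℕ) : ℝ) := by exact_mod_cast h1
    rw [Nat.cast_mul, Nat.cast_sub hq] at h3
    push_cast at h3
    exact h3
  have hUr : (0 : ℝ) < U := by exact_mod_cast hU
  have h4 : (q : ℝ) - (q : ℝ) ^ 2 / U = (q * (U - q)) / U := by
    field_simp
  rw [h4, div_le_iff₀ hUr]
  linarith

/-- the parallel sum in real terms -/
theorem ER_spec (U q : ℕ) (hU : 0 < U) (hq : q ≤ U) :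
    (q : ℝ) / 10000000 - ((q : ℝ) / 10000000) ^ 2 / ((U : ℝ) / 10000000) ≤ (EN U q : ℝ) / 10000000 := by
  have h1 := EN_spec U q hU hq
  have hUr : (0 : ℝ) < U := by exact_mod_cast hU
  have h2 : (q : ℝ) / 10000000 - ((q : ℝ) / 10000000) ^ 2 / ((U : ℝ) / 10000000) =
      ((q : ℝ) - (q : ℝ) ^ 2 / U) / 10000000 := by
    field_simp
  rw [h2]
  exact div_le_div_of_nonneg_right h1 (by norm_num)

/-- the parallel sums of complementary sets -/
theorem par_symm (U q q' : ℝ) (hU : 0 < U) (h : q + q' = U) : q' - q' ^ 2 / U = q - q ^ 2 / U := by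
  have h1 : q' = U - q := by linarith
  rw [h1]
  field_simp
  ring

/-- the cost from the test -/
theorem okN_spec (n : Fin 4 → ℕ) (hn : ∀ k, n k ≤ 65) (h : okN (n 0) (n 1) (n 2) (n 3) = true) :
    ∃ m A : ℝ, 0 ≤ m ∧ m ≤ A ∧ m + 2 * A ≤ 4 * (2 + Real.sqrt 2) ∧
      (∀ k, (39 / 25 : ℝ) * (uR (n k) - uR (n k) ^ 2 / ∑ l, uR (n l)) + 2 * (1 - (n k : ℝ) / 200) +
        2 / (39 / 25) ≤ m) ∧
      (∀ k l, k ≠ l → (39 / 25 : ℝ) * ((uR (n k) + uR (n l)) -
        (uR (n k) + uR (n l)) ^ 2 / ∑ j, uR (n j)) + 2 + 2 / (39 / 25) ≤ A) := by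
  obtain ⟨U, hU⟩ : ∃ U : ℕ, U = uN (n 0) + uN (n 1) + uN (n 2) + uN (n 3) := ⟨_, rfl⟩
  have hpos : ∀ k, 0 < uN (n k) := by
    intro k
    unfold uN
    exact Nat.succ_pos _
  have hU0 : 0 < U := by
    have := hpos 0
    omega
  obtain ⟨E, hE⟩ : ∃ E : ℕ, E = max (EN U (uN (n 0) + uN (n 1))) (max (EN U (uN (n 0) + uN (n 2)))
      (EN U (uN (n 0) + uN (n 3)))) := ⟨_, rfl⟩
  obtain ⟨M, hM⟩ : ∃ M : ℕ, M = max (max (mN U (n 0)) (mN U (n 1))) (max (mN U (n 2)) (mN U (n 3))) :=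
    ⟨_, rfl⟩
  have h1 : M + 2 * (39 * E + 500000000) + 961538462 ≤ 3414213000 ∧ M ≤ 39 * E + 500000000 := by
    rw [hM, hE, hU]
    simp only [okN, Bool.and_eq_true, Nat.ble_eq] at h
    exact h
  have hUsum : ∑ l, uR (n l) = (U : ℝ) / 10000000 := by
    rw [Fin.sum_univ_four, hU]
    unfold uR
    push_cast
    ring
  have hUr : (0 : ℝ) < (U : ℝ) / 10000000 := by
    have : (0 : ℝ) < U := by exact_mod_cast hU0
    positivity
  have hs2 : (14142135 / 10000000 : ℝ) ≤ Real.sqrt 2 := by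
    rw [Real.le_sqrt (by norm_num) (by norm_num)]
    norm_num
  refine ⟨(M : ℝ) / 250000000 + 2 / (39 / 25), (39 * (E : ℝ) + 500000000) / 250000000 + 2 / (39 / 25),
    by positivity, ?_, ?_, ?_, ?_⟩
  · have h2 : (M : ℝ) ≤ 39 * (E : ℝ) + 500000000 := by exact_mod_cast h1.2
    have h3 := div_le_div_of_nonneg_right h2 (by norm_num : (0 : ℝ) ≤ 250000000)
    linarith
  · have h2 : (M : ℝ) + 2 * (39 * (E : ℝ) + 500000000) + 961538462 ≤ 3414213000 := by exact_mod_cast h1.1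
    linarith
  · intro k
    have hq : uN (n k) ≤ U := by
      rw [hU]
      fin_cases k <;> simp <;> omega
    have h2 := ER_spec U (uN (n k)) hU0 hq
    rw [hUsum]
    have h3 : (39 / 25 : ℝ) * (uR (n k) - uR (n k) ^ 2 / ((U : ℝ) / 10000000)) ≤
        (39 / 25 : ℝ) * ((EN U (uN (n k)) : ℝ) / 10000000) :=
      mul_le_mul_of_nonneg_left h2 (by norm_num)
    have h4 : mN U (n k) ≤ M := by
      rw [hM]
      fin_cases k
      · exact le_max_of_le_left (le_max_left _ _)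
      · exact le_max_of_le_left (le_max_right _ _)
      · exact le_max_of_le_right (le_max_left _ _)
      · exact le_max_of_le_right (le_max_right _ _)
    have h5 : 39 * (EN U (uN (n k)) : ℝ) + 2500000 * (200 - (n k : ℝ)) ≤ M := by
      have h6 : ((mN U (n k) : ℕ) : ℝ) ≤ M := by exact_mod_cast h4
      unfold mN at h6
      have h7 : ((200 - n k : ℕ) : ℝ) = 200 - (n k : ℝ) := by
        have := hn k
        rw [Nat.cast_sub (by omega)]
        norm_num
      rw [Nat.cast_add, Nat.cast_mul, Nat.cast_mul, h7] at h6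
      push_cast at h6
      exact h6
    linarith
  · -- the three splits
    have hsp : ∀ q : ℕ, q ≤ U → EN U q ≤ E →
        (39 / 25 : ℝ) * ((q : ℝ) / 10000000 - ((q : ℝ) / 10000000) ^ 2 / ((U : ℝ) / 10000000)) + 2 +
          2 / (39 / 25) ≤ (39 * (E : ℝ) + 500000000) / 250000000 + 2 / (39 / 25) := by
      intro q hq hqE
      have h2 := ER_spec U q hU0 hq
      have h3 : (EN U q : ℝ) ≤ E := by exact_mod_cast hqE
      linarith
    have h01 := hsp (uN (n 0) + uN (n 1)) (by omega) (by rw [hE]; exact le_max_left _ _)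
    have h02 := hsp (uN (n 0) + uN (n 2)) (by omega)
      (by rw [hE]; exact le_max_of_le_right (le_max_left _ _))
    have h03 := hsp (uN (n 0) + uN (n 3)) (by omega)
      (by rw [hE]; exact le_max_of_le_right (le_max_right _ _))
    rw [hUsum]
    have hadd : ∀ i j : Fin 4, ((uN (n i) + uN (n j) : ℕ) : ℝ) / 10000000 = uR (n i) + uR (n j) := by
      intro i j
      unfold uR
      push_cast
      ring
    rw [hadd] at h01 h02 h03
    have hs4 : uR (n 0) + uR (n 1) + uR (n 2) + uR (n 3) = (U : ℝ) / 10000000 := by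
      rw [← hUsum, Fin.sum_univ_four]
    have h23 := par_symm _ (uR (n 0) + uR (n 1)) (uR (n 2) + uR (n 3)) hUr (by linarith)
    have h13 := par_symm _ (uR (n 0) + uR (n 2)) (uR (n 1) + uR (n 3)) hUr (by linarith)
    have h12 := par_symm _ (uR (n 0) + uR (n 3)) (uR (n 1) + uR (n 2)) hUr (by linarith)
    have hmain : ∀ k l : Fin 4, k < l → (39 / 25 : ℝ) * ((uR (n k) + uR (n l)) -
        (uR (n k) + uR (n l)) ^ 2 / ((U : ℝ) / 10000000)) + 2 + 2 / (39 / 25) ≤
        (39 * (E : ℝ) + 500000000) / 250000000 + 2 / (39 / 25) := by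
      intro k l hkl
      fin_cases k <;> fin_cases l <;> first
        | exact absurd hkl (by decide)
        | exact h01
        | exact h02
        | exact h03
        | (rw [← h12] at h03; exact h03)
        | (rw [← h13] at h02; exact h02)
        | (rw [← h23] at h01; exact h01)
    intro k l hkl
    rcases lt_or_gt_of_ne hkl with h | h
    · exact hmain k l h
    · have := hmain l k h
      rw [add_comm (uR (n l))] at this
      exact this

/-- the test applies to every system of caps with sum of deficits `65 / 200` -/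
theorem cost_spec (n : Fin 4 → ℕ) (hsum : ∑ k, n k = 65) :
    ∃ m A : ℝ, 0 ≤ m ∧ m ≤ A ∧ m + 2 * A ≤ 4 * (2 + Real.sqrt 2) ∧
      (∀ k, (39 / 25 : ℝ) * (uR (n k) - uR (n k) ^ 2 / ∑ l, uR (n l)) + 2 * (1 - (n k : ℝ) / 200) +
        2 / (39 / 25) ≤ m) ∧
      (∀ k l, k ≠ l → (39 / 25 : ℝ) * ((uR (n k) + uR (n l)) -
        (uR (n k) + uR (n l)) ^ 2 / ∑ j, uR (n j)) + 2 + 2 / (39 / 25) ≤ A) := by
  obtain ⟨τ, hτ⟩ : ∃ τ : Equiv.Perm (Fin 4), Monotone (n ∘ τ) := ⟨Tuple.sort n, Tuple.monotone_sort n⟩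
  obtain ⟨w, hw⟩ : ∃ w : Fin 4 → ℕ, w = n ∘ τ := ⟨_, rfl⟩
  have hwsum : w 0 + w 1 + w 2 + w 3 = 65 := by
    have h1 : ∑ k, w k = ∑ k, n k := by
      rw [hw]
      exact Equiv.sum_comp τ n
    rw [hsum, Fin.sum_univ_four] at h1
    exact h1
  have h01 : w 0 ≤ w 1 := by rw [hw]; exact hτ (by decide)
  have h12 : w 1 ≤ w 2 := by rw [hw]; exact hτ (by decide)
  have h23 : w 2 ≤ w 3 := by rw [hw]; exact hτ (by decide)
  have hok : okN (w 0) (w 1) (w 2) (w 3) = true := by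
    have h1 := okAll_true
    unfold okAll at h1
    rw [List.all_eq_true] at h1
    have h2 := h1 (w 0) (List.mem_range.mpr (by omega))
    rw [List.all_eq_true] at h2
    have h3 := h2 (w 1) (List.mem_range.mpr (by omega))
    rw [List.all_eq_true] at h3
    have h4 := h3 (w 2) (List.mem_range.mpr (by omega))
    have e1 : Nat.ble (w 0) (w 1) = true := by rw [Nat.ble_eq]; exact h01
    have e2 : Nat.ble (w 1) (w 2) = true := by rw [Nat.ble_eq]; exact h12
    have e3 : Nat.ble (w 0 + w 1 + w 2 + w 2) 65 = true := by rw [Nat.ble_eq]; omega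
    rw [e1, e2, e3] at h4
    have h5 : 65 - w 0 - w 1 - w 2 = w 3 := by omega
    rw [h5] at h4
    exact h4
  obtain ⟨m, A, hm0, hmA, hC, h13, h22⟩ := okN_spec w (fun k => by
    have h1 : w k ≤ ∑ l, w l := Finset.single_le_sum (f := w) (fun l _ => Nat.zero_le _) (Finset.mem_univ k)
    rw [Fin.sum_univ_four] at h1
    omega) hok
  have hUs : ∑ l, uR (w l) = ∑ l, uR (n l) := by
    rw [hw]
    exact Equiv.sum_comp τ (fun l => uR (n l))
  have hwk : ∀ k, w (τ.symm k) = n k := by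
    intro k
    rw [hw]
    simp
  refine ⟨m, A, hm0, hmA, hC, fun k => ?_, fun k l hkl => ?_⟩
  · have h1 := h13 (τ.symm k)
    rw [hUs, hwk] at h1
    exact h1
  · have h1 := h22 (τ.symm k) (τ.symm l) (fun h => hkl (τ.symm.injective h))
    rw [hUs, hwk, hwk] at h1
    exact h1

/-- a smaller vector with sum exactly `N` -/
theorem exists_le_sum (n : Fin 4 → ℕ) (N : ℕ) (h : N ≤ ∑ k, n k) :
    ∃ n' : Fin 4 → ℕ, (∀ k, n' k ≤ n k) ∧ ∑ k, n' k = N := by
  rw [Fin.sum_univ_four] at h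
  refine ⟨![min (n 0) N, min (n 1) (N - min (n 0) N), min (n 2) (N - min (n 0) N -
    min (n 1) (N - min (n 0) N)), N - min (n 0) N - min (n 1) (N - min (n 0) N) -
    min (n 2) (N - min (n 0) N - min (n 1) (N - min (n 0) N))], ?_, ?_⟩
  · intro k
    fin_cases k <;> simp <;> omega
  · rw [Fin.sum_univ_four]
    simp only [Matrix.cons_val_zero, Matrix.cons_val_one, Matrix.cons_val]
    omega

/-- **the weights** for a body of asymmetry at most `2.66` about `c` -/
theorem exists_wt (K : Set (Fin 3 → ℝ)) (hK : LFree K) (c : Fin 3 → ℝ) (s : ℝ) (hs : 1 ≤ s)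
    (hs' : s ≤ 266 / 100) (hc : ∀ x ∈ K, c - (1 / s) • (x - c) ∈ K) (P : Fin 4 → Fin 3 → ℤ)
    (v : Fin 4 → Fin 3 → ℝ) (h : Sep4 K P v) : ∃ u, Wt K (39 / 25) (4 * (2 + Real.sqrt 2)) v u := by
  obtain ⟨κ, hκ⟩ := exists_cap K hK c s hs hc P v h
  obtain ⟨n, hn⟩ : ∃ n : Fin 4 → ℕ, n = fun k => ⌊200 * (1 - κ k)⌋₊ := ⟨_, rfl⟩
  have hn1 : ∀ k, (n k : ℝ) ≤ 200 * (1 - κ k) := by
    intro k
    rw [hn]
    exact Nat.floor_le (by have := hκ.le_one k; linarith)
  have hn2 : ∀ k, 200 * (1 - κ k) < (n k : ℝ) + 1 := by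
    intro k
    rw [hn]
    exact Nat.lt_floor_add_one _
  have hsum : 65 ≤ ∑ k, n k := by
    have h1 : ∑ k, 200 * (1 - κ k) < ∑ k, ((n k : ℝ) + 1) :=
      Finset.sum_lt_sum_of_nonempty Finset.univ_nonempty fun k _ => hn2 k
    have h2 := hκ.sum_le
    rw [Fin.sum_univ_four] at h1 h2
    rw [Fin.sum_univ_four] at h1
    have h3 : (64 : ℝ) < ((n 0 + n 1 + n 2 + n 3 : ℕ) : ℝ) := by
      push_cast
      linarith
    have h4 : 64 < n 0 + n 1 + n 2 + n 3 := by exact_mod_cast h3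
    rw [Fin.sum_univ_four]
    omega
  obtain ⟨n', hle, hs65⟩ := exists_le_sum n 65 hsum
  have hn65 : ∀ k, n' k ≤ 65 := by
    intro k
    rw [← hs65]
    exact Finset.single_le_sum (f := n') (fun l _ => Nat.zero_le _) (Finset.mem_univ k)
  obtain ⟨m, A, hm0, hmA, hC, h13, h22⟩ := cost_spec n' hs65
  have hcap : ∀ k, κ k ≤ 1 - (n' k : ℝ) / 200 := by
    intro k
    have h1 : (n' k : ℝ) ≤ n k := by exact_mod_cast hle k
    have h2 := hn1 k
    linarith
  -- the gaps
  have hsum1 : ∀ x : Fin 3 → ℝ, ∑ k, (v k ⬝ᵥ toR (P k) - v k ⬝ᵥ x) = 1 := by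
    intro x
    rw [Finset.sum_sub_distrib, ← sum_dotProduct, h.sum_zero, zero_dotProduct, sub_zero]
    exact h.norm_one
  have hg0 : ∀ k, ∀ x ∈ K, 0 ≤ v k ⬝ᵥ toR (P k) - v k ⬝ᵥ x := by
    intro k x hx
    have := h.sep k x hx
    rw [← toR_same] at this
    linarith
  have hg1 : ∀ k, ∀ x ∈ K, v k ⬝ᵥ toR (P k) - v k ⬝ᵥ x ≤ 1 - (n' k : ℝ) / 200 := fun k x hx =>
    (hκ.gap k x hx).trans (hcap k)
  have hn200 : ∀ k, (0 : ℝ) < 200 - (n' k : ℝ) := by
    intro k
    have : (n' k : ℝ) ≤ 65 := by exact_mod_cast hn65 k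
    linarith
  have hgsq : ∀ x ∈ K, ∑ k, (v k ⬝ᵥ toR (P k) - v k ⬝ᵥ x) ^ 2 / uR (n' k) ≤ 1 := by
    intro x hx
    have h1 := weight_sq (926 / 1000) (by norm_num) (by norm_num)
      (fun k => (n' k : ℝ) / (200 - n' k)) (fun k => v k ⬝ᵥ toR (P k) - v k ⬝ᵥ x)
      (fun k => div_nonneg (Nat.cast_nonneg _) (hn200 k).le) ?_ (fun k => hg0 k x hx) ?_ (hsum1 x)
    · refine le_trans (Finset.sum_le_sum fun k _ => ?_) h1
      rw [div_eq_mul_one_div]
      exact mul_le_mul_of_nonneg_left (uR_ge (n' k) (hn65 k)) (sq_nonneg _)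
    · intro i j hij
      have h2 : n' i + n' j ≤ 65 := by
        rw [← hs65, ← Finset.sum_pair hij]
        exact Finset.sum_le_sum_of_subset (Finset.subset_univ _)
      have h3 : (n' i : ℝ) + n' j ≤ 65 := by exact_mod_cast h2
      have h4 := hn200 i
      have h5 := hn200 j
      have h6 : (n' i : ℝ) / (200 - n' i) * ((n' j : ℝ) / (200 - n' j)) =
          ((n' i : ℝ) * n' j) / ((200 - n' i) * (200 - n' j)) := by
        rw [div_mul_div_comm]
      rw [h6, ← mul_div_assoc, div_le_iff₀ (mul_pos h4 h5)]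
      have h7 : (0 : ℝ) ≤ n' i := Nat.cast_nonneg _
      have h8 : (0 : ℝ) ≤ n' j := Nat.cast_nonneg _
      nlinarith [sq_nonneg ((n' i : ℝ) - n' j)]
    · intro k
      have h2 := hg1 k x hx
      have h3 := hn200 k
      have h4 : 1 + (n' k : ℝ) / (200 - n' k) = 200 / (200 - n' k) := by
        field_simp
        ring
      rw [h4, ← mul_div_assoc, div_le_iff₀ h3]
      linarith
  refine ⟨fun k => uR (n' k), fun k => uR_pos _, ?_, m, A, hm0, hmA, hC, ?_⟩
  · intro x hx x' hx'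
    have h1 : ∀ k, (v k ⬝ᵥ (x - x')) ^ 2 / uR (n' k) ≤
        (v k ⬝ᵥ toR (P k) - v k ⬝ᵥ x) ^ 2 / uR (n' k) + (v k ⬝ᵥ toR (P k) - v k ⬝ᵥ x') ^ 2 / uR (n' k) := by
      intro k
      rw [← add_div]
      apply div_le_div_of_nonneg_right _ (uR_pos _).le
      rw [dotProduct_sub]
      have h2 := mul_nonneg (hg0 k x hx) (hg0 k x' hx')
      nlinarith
    refine (Finset.sum_le_sum fun k _ => h1 k).trans ?_
    rw [Finset.sum_add_distrib]
    have h3 := hgsq x hx
    have h4 := hgsq x' hx'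
    linarith
  · intro σ p q hpq
    obtain ⟨t, ht⟩ := cost_root p q hpq σ (fun k => uR (n' k)) (fun k => 1 - (n' k : ℝ) / 200) (39 / 25) m A
      (fun k => uR_pos _) (by norm_num) h13 h22
    refine ⟨t, fun x hx x' hx' => ?_⟩
    have h1 : ∑ k, (v k ⬝ᵥ (x - x')) = 0 := by
      rw [← sum_dotProduct, h.sum_zero, zero_dotProduct]
    have h2 : ∀ k, |v k ⬝ᵥ (x - x')| ≤ 1 - (n' k : ℝ) / 200 := by
      intro k
      rw [dotProduct_sub, abs_le]
      constructor
      · linarith [hg0 k x' hx', hg1 k x hx]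
      · linarith [hg0 k x hx, hg1 k x' hx']
    have h3 : ∑ k, |v k ⬝ᵥ (x - x')| ≤ 2 := by
      calc ∑ k, |v k ⬝ᵥ (x - x')|
          ≤ ∑ k, ((v k ⬝ᵥ toR (P k) - v k ⬝ᵥ x) + (v k ⬝ᵥ toR (P k) - v k ⬝ᵥ x')) := by
            apply Finset.sum_le_sum
            intro k _
            rw [dotProduct_sub, abs_le]
            constructor
            · linarith [hg0 k x' hx', hg0 k x hx]
            · linarith [hg0 k x hx, hg0 k x' hx']
        _ = 2 := by rw [Finset.sum_add_distrib, hsum1, hsum1]; norm_num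
    refine ht (fun k => v k ⬝ᵥ (x - x')) h1 h2 h3 ?_
    have h4 : ∀ k, (v k ⬝ᵥ (x - x')) ^ 2 / uR (n' k) ≤
        (v k ⬝ᵥ toR (P k) - v k ⬝ᵥ x) ^ 2 / uR (n' k) + (v k ⬝ᵥ toR (P k) - v k ⬝ᵥ x') ^ 2 / uR (n' k) := by
      intro k
      rw [← add_div]
      apply div_le_div_of_nonneg_right _ (uR_pos _).le
      rw [dotProduct_sub]
      have h2 := mul_nonneg (hg0 k x hx) (hg0 k x' hx')
      nlinarith
    refine (Finset.sum_le_sum fun k _ => h4 k).trans ?_
    rw [Finset.sum_add_distrib]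
    have h5 := hgsq x hx
    have h6 := hgsq x' hx'
    linarith

end Pool.Agent.Helper24.UB
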