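import Pool.Agent.Helper24.UB.AsExist
import Pool.Agent.Helper24.UB.WtDefs

/-! Lattice width and asymmetry, general weights: existence of the equilibrium. -/

set_option autoImplicit false

namespace Pool.Agent.Helper24.UB

open Matrix Pool.Agent.Helper22.Sym
open Pool.Agent.Helper12.LW (LFree chainP Sep4)
open Pool.Agent.Helper84.FL (Superbase)
open Pool.Agent.Helper1.FX (gram gram_apply PP rep InQ equil_gen toR_same exists_pot)

/-- existence of the equilibrium with general weights -/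
theorem exists_equiU (K : Set (Fin 3 → ℝ)) (hK : LFree K) (T C : ℝ)
    (hw : ∀ (P : Fin 4 → Fin 3 → ℤ) (v : Fin 4 → Fin 3 → ℝ), Sep4 K P v → ∃ u, Wt K T C v u)
    (ε : ℝ) (hε : 0 < ε) :
    ∃ (ι : Type) (_ : Fintype ι) (_ : Nonempty ι), Nonempty (EquiU K ε T C ι) := by
  classical
  obtain ⟨x0, hx0⟩ := hK.interior_nonempty
  obtain ⟨r, hr, hmem⟩ := mem_step hx0
  have hdet : ∀ f : Fin 4 → Fin 3 → ℤ, Superbase f → IsUnit (Matrix.of ![f 0, f 1, f 2]).det := by
    intro f hf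
    obtain ⟨w, hw⟩ := Pool.Agent.Helper84.FL.dual_basis f hf
    obtain ⟨F, hF⟩ : ∃ F : Matrix (Fin 3) (Fin 3) ℤ, F = Matrix.of ![f 0, f 1, f 2] := ⟨_, rfl⟩
    obtain ⟨M, hM⟩ : ∃ M : Matrix (Fin 3) (Fin 3) ℤ, M = Matrix.of fun k i => w i.castSucc k := ⟨_, rfl⟩
    have h1 : F * M = 1 := by
      ext l i
      rw [Matrix.mul_apply, Matrix.one_apply]
      have h2 := hw i.castSucc l.castSucc
      have h3 : l.castSucc ≠ (3 : Fin 4) := by
        intro h
        have := congrArg Fin.val h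
        simp at this
        omega
      rw [if_neg h3, sub_zero] at h2
      simp only [Fin.castSucc_inj] at h2
      rw [← h2]
      refine Finset.sum_congr rfl (fun k _ => ?_)
      rw [mul_comm, hF, hM]
      congr 1
      fin_cases l <;> rfl
    have h2 : F.det * M.det = 1 := by rw [← Matrix.det_mul, h1, Matrix.det_one]
    rw [← hF]
    exact IsUnit.of_mul_eq_one _ h2
  have hex : ∀ f : Fin 4 → Fin 3 → ℤ, ∃ (z : Fin 3 → ℤ) (σ : Equiv.Perm (Fin 3)) (v : Fin 4 → Fin 3 → ℝ)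
      (κ : Fin 4 → ℝ), Superbase f → Sep4 K (chainP f z σ) v ∧ Wt K T C v κ := by
    intro f
    by_cases hf : Superbase f
    · obtain ⟨z, σ, v, h⟩ := Pool.Agent.Helper1.UB.LW.sperner K hK f hf.sum (hdet f hf)
      obtain ⟨κ, hκ⟩ := hw _ _ h
      exact ⟨z, σ, v, κ, fun _ => ⟨h, hκ⟩⟩
    · exact ⟨0, 1, 0, 0, fun h => absurd h hf⟩
  choose z σ V κ hV using hex
  obtain ⟨V', hV'⟩ : ∃ V' : (Fin 4 → Fin 3 → ℤ) → Fin 4 → Fin 3 → ℝ,
      V' = fun f k => (1 / Real.sqrt (κ f k)) • V f k := ⟨_, rfl⟩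
  have hprod : ∀ f, Superbase f → ∀ k (a b : ℝ), (1 / Real.sqrt (κ f k) * a) * (1 / Real.sqrt (κ f k) * b) =
      a * b / κ f k := by
    intro f hf k a b
    have h1 := ((hV f hf).2.pos k).le
    have h2 : Real.sqrt (κ f k) * Real.sqrt (κ f k) = κ f k := Real.mul_self_sqrt h1
    have h3 : (1 / Real.sqrt (κ f k) * a) * (1 / Real.sqrt (κ f k) * b) =
        a * b / (Real.sqrt (κ f k) * Real.sqrt (κ f k)) := by
      rw [mul_mul_mul_comm, div_mul_div_comm, one_mul, one_div_mul_eq_div]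
    rw [h3, h2]
  have hbd : ∀ f, Superbase f → ∀ a b, |gram (V' f) a b| ≤ 1 / r ^ 2 := by
    intro f hf a b
    rw [gram_apply]
    have h0 : ∀ a b k, V' f k a * V' f k b = V f k a * V f k b / κ f k := by
      intro a b k
      rw [hV']
      simp only [Pi.smul_apply, smul_eq_mul]
      exact hprod f hf k _ _
    have hsq : ∀ a, ∑ k, V' f k a * V' f k a ≤ 1 / r ^ 2 := by
      intro a
      have h1 := (hV f hf).2.sq _ (hmem r a (by rw [abs_of_pos hr])) _
        (hmem (-r) a (by rw [abs_neg, abs_of_pos hr]))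
      have h2 : ∀ k, V f k ⬝ᵥ ((x0 + r • (Pi.single a 1 : Fin 3 → ℝ)) -
          (x0 + (-r) • (Pi.single a 1 : Fin 3 → ℝ))) = 2 * r * V f k a := by
        intro k
        rw [dotProduct_sub, dotProduct_add, dotProduct_add, dotProduct_smul, dotProduct_smul,
          dotProduct_single, mul_one, smul_eq_mul, smul_eq_mul]
        ring
      simp only [h2] at h1
      have h3 : ∑ k, (2 * r * V f k a) ^ 2 / κ f k = (4 * r ^ 2) * ∑ k, V' f k a * V' f k a := by
        rw [Finset.mul_sum]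
        refine Finset.sum_congr rfl fun k _ => ?_
        rw [h0 a a k]
        ring
      rw [h3] at h1
      rw [le_div_iff₀ (by positivity)]
      have h4 : 0 ≤ ∑ k, V' f k a * V' f k a := Finset.sum_nonneg fun k _ => mul_self_nonneg _
      nlinarith
    rw [abs_le]
    have ha := hsq a
    have hb := hsq b
    have h5 : 0 ≤ ∑ k, (V' f k a + V' f k b) ^ 2 := Finset.sum_nonneg fun k _ => sq_nonneg _
    have h6 : 0 ≤ ∑ k, (V' f k a - V' f k b) ^ 2 := Finset.sum_nonneg fun k _ => sq_nonneg _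
    simp only [Fin.sum_univ_four] at *
    constructor
    · nlinarith
    · nlinarith
  obtain ⟨F, y, Q, hQe, hQ, hy1, hF⟩ := equil_gen V' (1 / r ^ 2) (by positivity) hbd ε hε
  have hPD := hQ.posDef hε
  have hexg : ∀ f : {f // f ∈ F}, ∃ g : Fin 4 → Fin 3 → ℤ, Superb f.1 g := fun f =>
    exists_pot f.1 (hF f.1 f.2).2.1
  choose g hg using hexg
  have hne : Nonempty {f // f ∈ F} := by
    by_contra hcon
    rw [not_nonempty_iff] at hcon
    have h1 : F = ∅ := by
      rw [Finset.eq_empty_iff_forall_notMem]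
      intro f hf
      exact hcon.false ⟨f, hf⟩
    rw [h1, Finset.sum_empty] at hy1
    exact zero_ne_one hy1
  have hbil : ∀ (v : Fin 4 → Fin 3 → ℝ) (x w : Fin 3 → ℝ),
      x ⬝ᵥ gram v *ᵥ w = ∑ k, (v k ⬝ᵥ x) * (v k ⬝ᵥ w) := by
    intro v x w
    simp only [dotProduct, mulVec, gram_apply, Fin.sum_univ_three, Fin.sum_univ_four]
    ring
  have hsum : ∀ (x w : Fin 3 → ℝ) (s : Finset (Fin 4 → Fin 3 → ℤ))
      (A : (Fin 4 → Fin 3 → ℤ) → Matrix (Fin 3) (Fin 3) ℝ),
      x ⬝ᵥ (∑ f ∈ s, A f) *ᵥ w = ∑ f ∈ s, x ⬝ᵥ A f *ᵥ w := by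
    intro x w s A
    induction s using Finset.induction_on with
    | empty => simp
    | insert f s hf ih => rw [Finset.sum_insert hf, Finset.sum_insert hf, add_mulVec, dotProduct_add, ih]
  refine ⟨{f // f ∈ F}, inferInstance, hne, ⟨{
    y := fun f => y f.1
    f := fun f => f.1
    g := g
    z := fun f => z f.1
    σ := fun f => σ f.1
    v := fun f => V f.1
    u := fun f => κ f.1
    Q := Q
    ypos := fun f => (hF f.1 f.2).1
    ysum := ?_
    hsb := hg
    hv0 := fun f => (hV f.1 (hF f.1 f.2).2.1).1.sum_zero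
    hv1 := fun f => (hV f.1 (hF f.1 f.2).2.1).1.norm_one
    hwt := fun f => (hV f.1 (hF f.1 f.2).2.1).2
    hpd := hPD
    hQ := ?_
    hob := ?_ }⟩⟩
  · rw [← hy1]
    exact Finset.sum_coe_sort F y
  · intro x w
    conv_lhs => rw [hQe]
    rw [add_mulVec, dotProduct_add, smul_mulVec, one_mulVec, dotProduct_smul, smul_eq_mul, hsum]
    congr 1
    rw [← Finset.sum_coe_sort F]
    refine Finset.sum_congr rfl (fun f _ => ?_)
    rw [smul_mulVec, dotProduct_smul, smul_eq_mul, hbil]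
    congr 1
    refine Finset.sum_congr rfl (fun k _ => ?_)
    rw [hV']
    simp only [smul_dotProduct, smul_eq_mul]
    exact hprod f.1 (hF f.1 f.2).2.1 k _ _
  · intro f a b hab
    obtain ⟨-, h2, -, h4⟩ := hF f.1 f.2
    have h5 := Pool.Agent.Helper73.FX.sp_nonneg_of_min
      (Pool.Agent.Helper1.FX.posDef_symm hPD) h2 (fun g hg => h4 g hg) hab
    unfold Pool.Agent.Helper73.FX.sp at h5
    unfold Pool.Agent.Helper22.Sym.bil
    rw [toR_same]
    linarith

end Pool.Agent.Helper24.UB
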