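import Mathlib
import Pool.Agent.Helper24.UB.WtLeaves
import Pool.Agent.Helper18.UBd.TermT
import Pool.Agent.Helper24.UB.Comb
import Pool.Agent.Helper18.UBd.Hilb
import Pool.Agent.Helper18.UBd.Roots
import Pool.Agent.Helper92.UB.Leaves

/-! Lattice width and asymmetry, general weights: the final estimate. -/

set_option autoImplicit false

namespace Pool.Agent.Helper24.UB

open Matrix Pool.Agent.Helper22.Sym
open Pool.Agent.Helper12.LW (LFree chainP Sep4)
open Pool.Agent.Helper24.UB.Wl (norm_sum width_eq kappa_eq)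
open Pool.Agent.Helper18.UBd (term_T)

/-- the bound for a fixed parameter of the equilibrium with weights of cost at most `C` -/
theorem wt_eps {K : Set (Fin 3 → ℝ)} {ε δ D T C : ℝ} (hδ : 0 < δ) (hε : ε = δ ^ 2) (hD : 0 ≤ D)
    (hT : 0 < T) (hC : 0 ≤ C)
    (hKD : ∀ x ∈ K, ∀ x' ∈ K, (x - x') ⬝ᵥ (x - x') ≤ D ^ 2)
    {ι : Type} [Fintype ι] [Nonempty ι] (e : EquiU K ε T C ι) (W : ℝ) (hW0 : 0 ≤ W)
    (hW : ∀ r : Fin 3 → ℤ, r ≠ 0 → ∃ x ∈ K, ∃ x' ∈ K, W < toR r ⬝ᵥ (x - x')) :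
    W ≤ (1 / 4) * C + (3 / 2) * D * δ * (1 + C / T) := by
  classical
  obtain ⟨i0⟩ := (inferInstance : Nonempty ι)
  have hεpos : 0 < ε := by rw [hε]; positivity
  obtain ⟨r, hr⟩ : ∃ r : Fin 6 → Fin 3 → ℤ, r = rt (e.g i0) := ⟨_, rfl⟩
  obtain ⟨p, hpdef⟩ : ∃ p : Fin 6 → ℝ, p = fun s => -bil e.Q (e.f i0 (pa s)) (e.f i0 (pb s)) := ⟨_, rfl⟩
  have hne : ∀ s : Fin 6, pa s ≠ pb s := by decide +kernel
  have hp : ∀ u v : Fin 3 → ℝ, u ⬝ᵥ e.Q *ᵥ v = ∑ s, p s * ((toR (r s) ⬝ᵥ u) * (toR (r s) ⬝ᵥ v)) := by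
    intro u v
    rw [hr, hpdef]
    exact Pool.Agent.Helper18.UBd.expand e.Q e.hpd (e.f i0) (e.g i0) (e.hsb i0) u v
  have hp0 : ∀ s, 0 ≤ p s := by
    intro s
    rw [hpdef]
    have := e.hob i0 (pa s) (pb s) (hne s)
    simp only
    linarith
  have hr0 : ∀ s, r s ≠ 0 := by
    intro s hs
    have h1 := (e.hsb i0).2 (pa s) (pb s) (pa s)
    have h2 : (e.g i0 (pa s) - e.g i0 (pb s)) = 0 := by
      rw [hr] at hs
      exact hs
    rw [h2, zero_dotProduct, if_pos rfl, if_neg (hne s).symm] at h1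
    norm_num at h1
  have hex : ∀ s i, ∃ a b : Fin 4, a ≠ b ∧
      (0 < p s → ∀ l, r s ⬝ᵥ e.f i l = (if a = l then 1 else 0) - (if b = l then 1 else 0)) := by
    intro s i
    by_cases hs : 0 < p s
    · obtain ⟨a, b, hab, h⟩ := Pool.Agent.Helper18.UBd.root_common e.Q e.hpd (e.f i0) (e.g i0) (e.f i)
        (e.g i) (e.hsb i0) (e.hsb i) (e.hob i0) (e.hob i) s (by rw [hpdef] at hs; simp only at hs; linarith)
      exact ⟨a, b, hab, fun _ => by rw [hr]; exact h⟩
    · exact ⟨0, 1, by decide, fun h => absurd h hs⟩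
  choose a b hab hroot using hex
  -- the centres of `eta`
  have hcm := fun i => (e.hwt i).cost
  choose cm ca hcm0 hcma hcC hcen using hcm
  have hcen' := fun s i => hcen i (e.σ i) (a s i) (b s i) (hab s i)
  choose t ht using hcen'
  obtain ⟨rk, hrk⟩ : ∃ rk : ι × Fin 4 → ℝ, rk = fun x => Real.sqrt (e.u x.1 x.2) := ⟨_, rfl⟩
  have hrk2 : ∀ i k, rk (i, k) ^ 2 = e.u i k := by
    intro i k
    rw [hrk]
    exact Real.sq_sqrt ((e.hwt i).pos k).le
  have hrk0 : ∀ i k, rk (i, k) ≠ 0 := by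
    intro i k
    rw [hrk]
    exact (Real.sqrt_pos.mpr ((e.hwt i).pos k)).ne'
  have hdiv : ∀ i k (A B : ℝ), rk (i, k) * B * (A / rk (i, k)) = A * B := by
    intro i k A B
    have h1 := hrk0 i k
    field_simp
  have hdiv2 : ∀ i k (A B : ℝ), A / rk (i, k) * (B / rk (i, k)) = A * B / e.u i k := by
    intro i k A B
    rw [div_mul_div_comm, ← pow_two, hrk2]
  obtain ⟨α, hα⟩ : ∃ α : Fin 6 → ι × Fin 4 → ℝ, α = fun s x => e.v x.1 x.2 ⬝ᵥ e.Q⁻¹ *ᵥ toR (r s) := ⟨_, rfl⟩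
  obtain ⟨m, hm⟩ : ∃ m : ι × Fin 4 → ℝ, m = fun x => e.y x.1 := ⟨_, rfl⟩
  have hm0 : ∀ x, 0 ≤ m x := by
    intro x
    rw [hm]
    exact (e.ypos x.1).le
  have hmsum : ∀ F : ι × Fin 4 → ℝ, ∑ x, m x * F x = ∑ i, e.y i * ∑ k, F (i, k) := by
    intro F
    rw [Fintype.sum_prod_type, hm]
    simp only [Finset.mul_sum]
  obtain ⟨θ, hθ⟩ : ∃ θ : Fin 6 → ℝ,
      θ = fun s => ∑ i, e.y i * ((tt (a s i) (b s i) (e.σ i) : ℝ) * (ca i - cm i)) := ⟨_, rfl⟩
  obtain ⟨M, hM⟩ : ∃ M : ℝ, M = ∑ i, e.y i * cm i := ⟨_, rfl⟩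
  have htt : ∀ s i, (0 : ℝ) ≤ (tt (a s i) (b s i) (e.σ i) : ℝ) ∧ (tt (a s i) (b s i) (e.σ i) : ℝ) ≤ 1 := by
    intro s i
    rcases tt_mem (a s i) (b s i) (hab s i) (e.σ i) with h | h <;> rw [h] <;> norm_num
  have hdf : ∀ i, 0 ≤ ca i - cm i := fun i => by linarith [hcma i]
  have hθ0 : ∀ s, 0 ≤ θ s := by
    intro s
    rw [hθ]
    exact Finset.sum_nonneg fun i _ => mul_nonneg (e.ypos i).le (mul_nonneg (htt s i).1 (hdf i))
  have hM0 : 0 ≤ M := by
    rw [hM]
    exact Finset.sum_nonneg fun i _ => mul_nonneg (e.ypos i).le (hcm0 i)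
  obtain ⟨A, hA⟩ : ∃ A : Fin 6 → ℝ, A = fun s => ∑ i, e.y i * ∑ k, α s (i, k) ^ 2 / e.u i k := ⟨_, rfl⟩
  have hAm : ∀ s, ∑ x, m x * (α s x / rk x) ^ 2 = A s := by
    intro s
    rw [hmsum, hA]
    simp only
    refine Finset.sum_congr rfl fun i _ => ?_
    congr 1
    refine Finset.sum_congr rfl fun k _ => ?_
    rw [div_pow, hrk2]
  have hA0 : ∀ s, 0 ≤ A s := by
    intro s
    rw [← hAm]
    exact Finset.sum_nonneg fun x _ => mul_nonneg (hm0 x) (sq_nonneg _)
  obtain ⟨w, hw⟩ : ∃ w : Fin 6 → Fin 3 → ℝ, w = fun s => e.Q⁻¹ *ᵥ toR (r s) := ⟨_, rfl⟩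
  obtain ⟨B, hB⟩ : ∃ B : Fin 6 → ℝ, B = fun s => w s ⬝ᵥ w s := ⟨_, rfl⟩
  have hB0 : ∀ s, 0 ≤ B s := by
    intro s
    rw [hB]
    simp only [dotProduct]
    exact Finset.sum_nonneg fun j _ => mul_self_nonneg _
  obtain ⟨κ, hκ⟩ : ∃ κ : Fin 6 → ℝ, κ = fun s => toR (r s) ⬝ᵥ e.Q⁻¹ *ᵥ toR (r s) := ⟨_, rfl⟩
  have hκe : ∀ s, κ s = ε * B s + A s := by
    intro s
    rw [hκ, hB, hA, hw, hα]
    simp only
    rw [kappa_eq e (toR (r s))]
  have hκs : ∑ s, p s * κ s = 3 := by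
    rw [hκ]
    exact Pool.Agent.Helper92.UB.kappa_sum e.Q e.hpd p r hp
  have hκ1 : ∀ s, p s * κ s ≤ 1 := by
    intro s
    rw [hκ]
    exact Pool.Agent.Helper92.UB.kappa_le e.Q e.hpd p hp0 r hp s
  -- the normalisation
  obtain ⟨et, het⟩ : ∃ et : Fin 6 → ι × Fin 4 → ℝ,
      et = fun s x => rk x * ((eta (a s x.1) (b s x.1) (e.σ x.1) x.2 : ℝ) - t s x.1) := ⟨_, rfl⟩
  obtain ⟨n, hn⟩ : ∃ n : Fin 6 → ℝ, n = fun s => ∑ x : ι × Fin 4, m x * (et s x * (α s x / rk x)) := ⟨_, rfl⟩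
  have hα0 : ∀ s i, ∑ k, α s (i, k) = 0 := by
    intro s i
    rw [hα]
    simp only
    rw [← sum_dotProduct, e.hv0 i, zero_dotProduct]
  have hns : ∑ s, p s * n s = 1 := by
    rw [← norm_sum e p r hp]
    refine Finset.sum_congr rfl fun s _ => ?_
    rcases (hp0 s).eq_or_lt with hs | hs
    · rw [← hs, zero_mul, zero_mul]
    · congr 1
      rw [hn]
      simp only
      rw [hmsum]
      refine Finset.sum_congr rfl fun i _ => ?_
      congr 1
      have h1 : ∀ k, ((r s ⬝ᵥ chainP (e.f i) (e.z i) (e.σ i) k : ℤ) : ℝ) =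
          ((r s ⬝ᵥ e.z i : ℤ) : ℝ) + (eta (a s i) (b s i) (e.σ i) k : ℝ) := by
        intro k
        rw [chain_val (e.f i) (e.z i) (e.σ i) (r s) (a s i) (b s i) (hroot s i hs) k]
        push_cast
        ring
      have h2 : ∀ k, (e.v i k ⬝ᵥ e.Q⁻¹ *ᵥ toR (r s)) = α s (i, k) := by
        intro k
        rw [hα]
      have h4 : ∀ k, et s (i, k) * (α s (i, k) / rk (i, k)) =
          α s (i, k) * ((eta (a s i) (b s i) (e.σ i) k : ℝ) - t s i) := by
        intro k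
        rw [het]
        exact hdiv i k _ _
      simp only [h1, h2, h4]
      have h3 := hα0 s i
      simp only [Fin.sum_univ_four] at h3 ⊢
      linear_combination (-t s i - ((r s ⬝ᵥ e.z i : ℤ) : ℝ)) * h3
  -- the estimate for one root
  obtain ⟨CE, hCE⟩ : ∃ CE : ℝ, CE = 1 + C / T := ⟨_, rfl⟩
  have hCT : 0 ≤ C / T := by positivity
  have hCE1 : 1 ≤ CE := by
    rw [hCE]
    linarith
  -- there are two points of `K`
  obtain ⟨x0, hx0, -⟩ := hW (r 0) (hr0 0)
  have hηE : ∀ s, ∑ x, m x * et s x ^ 2 =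
      ∑ i, e.y i * ∑ k, e.u i k * ((eta (a s i) (b s i) (e.σ i) k : ℝ) - t s i) ^ 2 := by
    intro s
    rw [hmsum]
    refine Finset.sum_congr rfl fun i _ => ?_
    congr 1
    refine Finset.sum_congr rfl fun k _ => ?_
    rw [het]
    simp only
    rw [mul_pow, hrk2]
  have hηle : ∀ s, ∑ x, m x * et s x ^ 2 ≤ CE := by
    intro s
    rw [hηE]
    have h1 : ∀ i, ∑ k, e.u i k * ((eta (a s i) (b s i) (e.σ i) k : ℝ) - t s i) ^ 2 ≤ CE := by
      intro i
      have h2 := ht s i x0 hx0 x0 hx0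
      simp only [sub_self, dotProduct_zero, zero_mul, Finset.sum_const_zero, mul_zero, add_zero,
        ne_eq, OfNat.ofNat_ne_zero, not_false_eq_true, zero_pow, zero_div] at h2
      have h3 : (tt (a s i) (b s i) (e.σ i) : ℝ) * (ca i - cm i) ≤ ca i - cm i :=
        mul_le_of_le_one_left (hdf i) (htt s i).2
      have h4 : T * ∑ k, e.u i k * ((eta (a s i) (b s i) (e.σ i) k : ℝ) - t s i) ^ 2 ≤ T * CE := by
        have h5 : T * CE = T + C := by
          rw [hCE]
          field_simp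
        have h6 := hcC i
        have h7 := hcm0 i
        have h8 := hcma i
        rw [h5]
        linarith
      exact le_of_mul_le_mul_left h4 hT
    calc ∑ i, e.y i * ∑ k, e.u i k * ((eta (a s i) (b s i) (e.σ i) k : ℝ) - t s i) ^ 2
        ≤ ∑ i, e.y i * CE := Finset.sum_le_sum fun i _ => mul_le_mul_of_nonneg_left (h1 i) (e.ypos i).le
      _ = CE := by rw [← Finset.sum_mul, e.ysum, one_mul]
  have hone : ∀ s, p s * (W * n s) ≤
      (p s * A s) * ((1 / 4) * (M + (if 0 < p s then θ s else 0))) +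
        (1 / 2) * D * δ * CE * (p s * κ s) := by
    intro s
    rcases (hp0 s).eq_or_lt with hs | hs
    · rw [← hs]
      simp
    rw [if_pos hs]
    obtain ⟨x, hx, x', hx', hlt⟩ := hW (r s) (hr0 s)
    have hρ0 : ∀ i, ∑ k, e.v i k ⬝ᵥ (x - x') = 0 := by
      intro i
      rw [← sum_dotProduct, e.hv0 i, zero_dotProduct]
    obtain ⟨ρ, hρdef⟩ : ∃ ρ : ι × Fin 4 → ℝ, ρ = fun y => (e.v y.1 y.2 ⬝ᵥ (x - x')) / rk y := ⟨_, rfl⟩
    have hρsq : ∑ y, m y * ρ y ^ 2 = ∑ i, e.y i * ∑ k, (e.v i k ⬝ᵥ (x - x')) ^ 2 / e.u i k := by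
      rw [hmsum]
      refine Finset.sum_congr rfl fun i _ => ?_
      congr 1
      refine Finset.sum_congr rfl fun k _ => ?_
      rw [hρdef]
      simp only
      rw [div_pow, hrk2]
    have hρη : ∑ y, m y * (ρ y * et s y) =
        ∑ i, e.y i * ∑ k, (e.v i k ⬝ᵥ (x - x')) * (eta (a s i) (b s i) (e.σ i) k : ℝ) := by
      rw [hmsum]
      refine Finset.sum_congr rfl fun i _ => ?_
      congr 1
      have h1 : ∀ k, ρ (i, k) * et s (i, k) =
          (e.v i k ⬝ᵥ (x - x')) * ((eta (a s i) (b s i) (e.σ i) k : ℝ) - t s i) := by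
        intro k
        rw [hρdef, het]
        simp only
        rw [mul_comm]
        exact hdiv i k _ _
      simp only [h1]
      have h3 := hρ0 i
      simp only [Fin.sum_univ_four] at h3 ⊢
      linear_combination (-t s i) * h3
    have hρα : ∑ y, m y * (ρ y * (α s y / rk y)) =
        ∑ i, e.y i * ∑ k, (e.v i k ⬝ᵥ e.Q⁻¹ *ᵥ toR (r s)) * (e.v i k ⬝ᵥ (x - x')) / e.u i k := by
      rw [hmsum]
      refine Finset.sum_congr rfl fun i _ => ?_
      congr 1
      refine Finset.sum_congr rfl fun k _ => ?_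
      rw [hρdef, hα]
      simp only
      rw [hdiv2, mul_comm]
    have hwid := width_eq e (toR (r s)) (x - x')
    have hcs : (w s ⬝ᵥ (x - x')) ≤ Real.sqrt (B s) * D := by
      have h1 : (w s ⬝ᵥ (x - x')) ^ 2 ≤ B s * D ^ 2 := by
        have h2 : (w s ⬝ᵥ (x - x')) ^ 2 ≤ (w s ⬝ᵥ w s) * ((x - x') ⬝ᵥ (x - x')) := by
          have h3 := Finset.sum_mul_sq_le_sq_mul_sq Finset.univ (w s) (x - x')
          simp only [dotProduct]
          simp only [← pow_two]
          exact h3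
        refine h2.trans ?_
        have h4 : 0 ≤ w s ⬝ᵥ w s := by
          have := hB0 s
          rw [hB] at this
          exact this
        have h5 := mul_le_mul_of_nonneg_left (hKD x hx x' hx') h4
        rw [hB]
        exact h5
      have h6 : (w s ⬝ᵥ (x - x')) ^ 2 ≤ (Real.sqrt (B s) * D) ^ 2 := by
        rw [mul_pow, Real.sq_sqrt (hB0 s)]
        exact h1
      exact (le_abs_self _).trans (abs_le_of_sq_le_sq h6 (mul_nonneg (Real.sqrt_nonneg _) hD))
    obtain ⟨er, her⟩ : ∃ er : ℝ, er = ε * (Real.sqrt (B s) * D) := ⟨_, rfl⟩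
    have her0 : 0 ≤ er := by
      rw [her]
      have := Real.sqrt_nonneg (B s)
      positivity
    have hWe : W ≤ (∑ y, m y * (ρ y * (α s y / rk y))) + er := by
      rw [hρα, her]
      have h1 : ε * (w s ⬝ᵥ (x - x')) ≤ ε * (Real.sqrt (B s) * D) :=
        mul_le_mul_of_nonneg_left hcs hεpos.le
      rw [hw] at h1
      simp only at h1
      linarith
    have hterm := term_T m ρ (et s) (fun y => α s y / rk y) hm0 hT hW0 hWe her0
    have hnn : (∑ y, m y * (et s y * (α s y / rk y))) = n s := by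
      rw [hn]
    rw [hnn, hAm] at hterm
    -- the coefficient
    have hcoef : T * (∑ y, m y * et s y ^ 2) + 2 * (∑ y, m y * (ρ y * et s y)) +
        (∑ y, m y * ρ y ^ 2) / T ≤ M + θ s := by
      rw [hηE, hρη, hρsq, hθ, hM]
      simp only
      rw [Finset.mul_sum, Finset.mul_sum, Finset.sum_div, ← Finset.sum_add_distrib,
        ← Finset.sum_add_distrib, ← Finset.sum_add_distrib]
      refine Finset.sum_le_sum fun i _ => ?_
      have h2 := ht s i x hx x' hx'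
      have h3 := mul_le_mul_of_nonneg_left h2 (e.ypos i).le
      refine le_trans (le_of_eq ?_) (h3.trans (le_of_eq ?_))
      · ring
      · ring
    -- the error
    have hn2 : n s ^ 2 ≤ CE * A s := by
      have h1 := Pool.Agent.Helper18.UBd.wcs m (et s) (fun y => α s y / rk y) hm0
      rw [hnn, hAm] at h1
      exact h1.trans (mul_le_mul_of_nonneg_right (hηle s) (hA0 s))
    have herr : er * |n s| ≤ (1 / 2) * D * δ * CE * κ s := by
      have h1 : Real.sqrt (B s) ^ 2 = B s := Real.sq_sqrt (hB0 s)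
      have h2 : |n s| ^ 2 = n s ^ 2 := sq_abs _
      have h3 : 2 * (|n s| * (δ * Real.sqrt (B s))) ≤ CE * (A s + δ ^ 2 * B s) := by
        have h5 : 0 ≤ (CE - 1) * (δ ^ 2 * B s) :=
          mul_nonneg (by linarith) (mul_nonneg (sq_nonneg _) (hB0 s))
        nlinarith [sq_nonneg (|n s| - δ * Real.sqrt (B s))]
      have h4 : er * |n s| = (1 / 2) * D * δ * (2 * (|n s| * (δ * Real.sqrt (B s)))) := by
        rw [her, hε]
        ring
      rw [h4, hκe s, hε, add_comm (δ ^ 2 * B s)]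
      have h6 := mul_le_mul_of_nonneg_left h3 (by positivity : 0 ≤ (1 / 2) * D * δ)
      linarith
    have h5 : W * n s ≤ (1 / 4) * (M + θ s) * A s + (1 / 2) * D * δ * CE * κ s := by
      have h6 : (1 / 4) * (T * (∑ y, m y * et s y ^ 2) + 2 * (∑ y, m y * (ρ y * et s y)) +
          (∑ y, m y * ρ y ^ 2) / T) * A s ≤ (1 / 4) * (M + θ s) * A s := by
        apply mul_le_mul_of_nonneg_right _ (hA0 s)
        linarith
      linarith
    have h7 := mul_le_mul_of_nonneg_left h5 hs.le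
    refine h7.trans (le_of_eq ?_)
    ring
  -- the sum
  have hsumW : W = ∑ s, p s * (W * n s) := by
    have h1 : ∑ s, p s * (W * n s) = W * ∑ s, p s * n s := by
      rw [Finset.mul_sum]
      exact Finset.sum_congr rfl fun s _ => by ring
    rw [h1, hns, mul_one]
  have hθs : ∑ s, (if 0 < p s then θ s else 0) ≤ ∑ i, e.y i * (2 * (ca i - cm i)) := by
    rw [← Finset.sum_filter, hθ]
    rw [Finset.sum_comm]
    have h1 : ∀ i, ∑ s ∈ Finset.univ.filter (fun s => 0 < p s),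
        e.y i * ((tt (a s i) (b s i) (e.σ i) : ℝ) * (ca i - cm i)) ≤ e.y i * (2 * (ca i - cm i)) := by
      intro i
      rw [← Finset.mul_sum]
      refine mul_le_mul_of_nonneg_left ?_ (e.ypos i).le
      rw [← Finset.sum_mul]
      refine mul_le_mul_of_nonneg_right ?_ (hdf i)
      have h2 := tt_sum (e.f i0) (e.g i0) (e.f i) (e.g i) (e.hsb i0) (e.hsb i) (e.σ i)
        (Finset.univ.filter (fun s => 0 < p s)) (fun s => a s i) (fun s => b s i)
        (fun s _ => hab s i)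
        (by
          intro s hs l
          have := hroot s i (Finset.mem_filter.mp hs).2 l
          rw [hr] at this
          exact this)
      exact_mod_cast h2
    exact Finset.sum_le_sum fun i _ => h1 i
  have hω1 : ∀ s, p s * A s ≤ 1 := by
    intro s
    have h1 := hκ1 s
    rw [hκe s] at h1
    have h2 : 0 ≤ p s * (ε * B s) := mul_nonneg (hp0 s) (mul_nonneg hεpos.le (hB0 s))
    linarith
  have hω3 : ∑ s, p s * A s ≤ 3 := by
    rw [← hκs]
    refine Finset.sum_le_sum fun s _ => ?_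
    rw [hκe s]
    have h2 : 0 ≤ p s * (ε * B s) := mul_nonneg (hp0 s) (mul_nonneg hεpos.le (hB0 s))
    linarith
  have hωθ : ∑ s, (p s * A s) * (if 0 < p s then θ s else 0) ≤ ∑ i, e.y i * (2 * (ca i - cm i)) := by
    refine le_trans (Finset.sum_le_sum fun s _ => ?_) hθs
    apply mul_le_of_le_one_left _ (hω1 s)
    split_ifs
    · exact hθ0 s
    · exact le_rfl
  have hMC : 3 * M + ∑ i, e.y i * (2 * (ca i - cm i)) ≤ C := by
    rw [hM, Finset.mul_sum, ← Finset.sum_add_distrib]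
    have h1 : ∀ i, 3 * (e.y i * cm i) + e.y i * (2 * (ca i - cm i)) ≤ e.y i * C := by
      intro i
      have h2 := mul_le_mul_of_nonneg_left (hcC i) (e.ypos i).le
      linarith
    refine (Finset.sum_le_sum fun i _ => h1 i).trans (le_of_eq ?_)
    rw [← Finset.sum_mul, e.ysum, one_mul]
  have hfin : ∑ s, p s * (W * n s) ≤ (1 / 4) * C + (3 / 2) * D * δ * CE := by
    refine (Finset.sum_le_sum fun s _ => hone s).trans ?_
    rw [Finset.sum_add_distrib, ← Finset.mul_sum (f := fun s => p s * κ s), hκs]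
    have h1 : ∑ s, (p s * A s) * ((1 / 4) * (M + (if 0 < p s then θ s else 0))) =
        (1 / 4) * (M * ∑ s, p s * A s + ∑ s, (p s * A s) * (if 0 < p s then θ s else 0)) := by
      rw [Finset.mul_sum, ← Finset.sum_add_distrib, Finset.mul_sum]
      exact Finset.sum_congr rfl fun s _ => by ring
    rw [h1]
    have h2 := mul_le_mul_of_nonneg_left hω3 hM0
    linarith
  rw [hsumW]
  refine hfin.trans (le_of_eq ?_)
  rw [hCE]

end Pool.Agent.Helper24.UB
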