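import Mathlib
import Pool.Agent.Helper24.UB.WtFinal
import Pool.Agent.Helper24.UB.WtExist
import Pool.Agent.Helper24.UB.WtCap
import Pool.Agent.Helper24.UB.Last

/-! Lattice width and asymmetry, general weights: limit and the final form. -/

set_option autoImplicit false

namespace Pool.Agent.Helper24.UB

open Matrix Pool.Agent.Helper22.Sym
open Pool.Agent.Helper12.LW (LFree chainP Sep4)

/-- the bound for a body all of whose systems of separators have weights of cost at most `C` -/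
theorem wt_bound (K : Set (Fin 3 → ℝ)) (hK : LFree K) (T C : ℝ) (hT : 0 < T) (hC : 0 ≤ C)
    (hw : ∀ (P : Fin 4 → Fin 3 → ℤ) (v : Fin 4 → Fin 3 → ℝ), Sep4 K P v → ∃ u, Wt K T C v u)
    (W : ℝ) (hW : ∀ r : Fin 3 → ℤ, r ≠ 0 → ∃ x ∈ K, ∃ x' ∈ K, W < toR r ⬝ᵥ (x - x')) :
    W ≤ (1 / 4) * C := by
  rcases lt_or_ge W 0 with hneg | hW0
  · linarith
  obtain ⟨R, hR⟩ := (Metric.isBounded_iff_subset_closedBall (0 : Fin 3 → ℝ)).mp hK.compact.isBounded
  obtain ⟨c, hc⟩ := hK.interior_nonempty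
  have hRn : 0 ≤ R := by
    have h1 := hR (interior_subset hc)
    rw [mem_closedBall_zero_iff] at h1
    exact (norm_nonneg _).trans h1
  have hKD : ∀ x ∈ K, ∀ x' ∈ K, (x - x') ⬝ᵥ (x - x') ≤ (4 * R) ^ 2 := by
    intro x hx x' hx'
    have h1 := hR hx
    have h2 := hR hx'
    rw [mem_closedBall_zero_iff] at h1 h2
    have h3 : ∀ j, (x - x') j * (x - x') j ≤ (2 * R) ^ 2 := by
      intro j
      have h4 : |(x - x') j| ≤ 2 * R := by
        have h5 := (norm_le_pi_norm (x - x') j).trans (norm_sub_le x x')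
        rw [Real.norm_eq_abs] at h5
        linarith
      rw [← sq]
      exact sq_le_sq' (by linarith [(abs_le.mp h4).1]) (abs_le.mp h4).2
    simp only [dotProduct, Fin.sum_univ_three]
    have h6 := h3 0
    have h7 := h3 1
    have h8 := h3 2
    nlinarith
  refine le_of_forall_pos_le_add fun τ hτ => ?_
  obtain ⟨CE, hCE⟩ : ∃ CE : ℝ, CE = 1 + C / T := ⟨_, rfl⟩
  have hCE0 : 0 < CE := by rw [hCE]; positivity
  obtain ⟨δ, hδ⟩ : ∃ δ : ℝ, δ = τ / (1 + (3 / 2) * (4 * R) * CE) := ⟨_, rfl⟩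
  have hden : 0 < 1 + (3 / 2) * (4 * R) * CE := by positivity
  have hδ0 : 0 < δ := by rw [hδ]; positivity
  obtain ⟨ι, _, _, ⟨e⟩⟩ := exists_equiU K hK T C hw (δ ^ 2) (by positivity)
  have h1 := wt_eps hδ0 rfl (by positivity : (0 : ℝ) ≤ 4 * R) hT hC hKD e W hW0 hW
  rw [← hCE] at h1
  have h2 : (3 / 2) * (4 * R) * δ * CE ≤ τ := by
    rw [hδ]
    have h5 : (3 / 2) * (4 * R) * (τ / (1 + (3 / 2) * (4 * R) * CE)) * CE =
        ((3 / 2) * (4 * R) * CE) * τ / (1 + (3 / 2) * (4 * R) * CE) := by ring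
    rw [h5, div_le_iff₀ hden]
    nlinarith
  linarith

/-- **Bodies of asymmetry at most `2.66` have lattice width at most `2 + √2`.** -/
theorem asym266 (K : Set (Fin 3 → ℝ)) (hK : IsCompact K) (hcv : Convex ℝ K)
    (hint : (interior K).Nonempty) (hfree : ∀ z : Fin 3 → ℤ, (fun i => (z i : ℝ)) ∉ interior K)
    (c : Fin 3 → ℝ) (s : ℝ) (hs : 1 ≤ s) (hs' : s ≤ 266 / 100) (hc : ∀ x ∈ K, c - (1 / s) • (x - c) ∈ K) :
    ∃ y : Fin 3 → ℤ, y ≠ 0 ∧ ∀ x ∈ K, ∀ x' ∈ K,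
      ∑ i, (x i - x' i) * (y i : ℝ) ≤ 2 + Real.sqrt 2 := by
  by_contra hcon
  push Not at hcon
  have h1 : ∀ r : Fin 3 → ℤ, r ≠ 0 → ∃ x ∈ K, ∃ x' ∈ K, 2 + Real.sqrt 2 < toR r ⬝ᵥ (x - x') := by
    intro r hr
    obtain ⟨x, hx, x', hx', h⟩ := hcon r hr
    refine ⟨x, hx, x', hx', ?_⟩
    have h2 : toR r ⬝ᵥ (x - x') = ∑ i, (x i - x' i) * (r i : ℝ) := by
      simp only [dotProduct, toR, Pi.sub_apply]
      exact Finset.sum_congr rfl fun i _ => mul_comm _ _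
    rw [h2]
    exact h
  obtain ⟨W, hW, h2⟩ := width_gap K hint _ h1
  have hLF : LFree K := ⟨hK, hcv, hint, hfree⟩
  have h3 := wt_bound K hLF (39 / 25) (4 * (2 + Real.sqrt 2)) (by norm_num) (by positivity)
    (fun P v h => exists_wt K hLF c s hs hs' hc P v h) W h2
  linarith

end Pool.Agent.Helper24.UB
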