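import Mathlib
import Pool.Agent.Helper52.Brouwer.Main

/-! Existence of a Nash equilibrium for continuous costs on the standard simplex, from Brouwer on a box. -/

set_option autoImplicit false

namespace Pool.Agent.Helper24.UB

open Pool.Agent.Helper52.Brouwer

/-- (E1) Nash equilibrium for continuous costs on the simplex. -/
theorem nash {ι : Type} [Fintype ι] [Nonempty ι] (c : ι → (ι → ℝ) → ℝ) (hc : ∀ i, Continuous (c i)) :
    ∃ y : ι → ℝ, (∀ i, 0 ≤ y i) ∧ ∑ i, y i = 1 ∧ ∀ i, 0 < y i → ∀ j, c i y ≤ c j y := by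
  classical
  obtain ⟨n, hn⟩ : ∃ n : ℝ, n = (Fintype.card ι : ℝ) := ⟨_, rfl⟩
  have hn0 : 0 < n := by
    rw [hn]
    exact_mod_cast Fintype.card_pos
  -- the retraction of the cube to the simplex
  obtain ⟨ρ, hρ⟩ : ∃ ρ : (ι → ℝ) → ι → ℝ, ρ = fun t i =>
      (t i + max 0 (1 - ∑ j, t j) / n) / max 1 (∑ j, t j) := ⟨_, rfl⟩
  have hρc : Continuous ρ := by
    rw [hρ]
    refine continuous_pi fun i => ?_
    refine Continuous.div (by fun_prop) (by fun_prop) ?_
    intro t
    have : (1 : ℝ) ≤ max 1 (∑ j, t j) := le_max_left _ _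
    linarith
  have hρ0 : ∀ t : ι → ℝ, (∀ i, 0 ≤ t i) → ∀ i, 0 ≤ ρ t i := by
    intro t ht i
    rw [hρ]
    have h1 := ht i
    positivity
  have hρ1 : ∀ t : ι → ℝ, ∑ i, ρ t i = 1 := by
    intro t
    rw [hρ]
    simp only
    rw [← Finset.sum_div, Finset.sum_add_distrib, Finset.sum_const, Finset.card_univ, nsmul_eq_mul, ← hn]
    have h1 : n * (max 0 (1 - ∑ j, t j) / n) = max 0 (1 - ∑ j, t j) := by
      field_simp
    rw [h1]
    rcases le_total (∑ j, t j) 1 with h | h
    · rw [max_eq_right (by linarith : (0 : ℝ) ≤ 1 - ∑ j, t j), max_eq_left h]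
      simp
    · rw [max_eq_left (by linarith : 1 - ∑ j, t j ≤ (0 : ℝ)), max_eq_right h, add_zero]
      exact div_self (by linarith)
  have hρi : ∀ t : ι → ℝ, ∑ i, t i = 1 → ρ t = t := by
    intro t ht
    rw [hρ]
    funext i
    simp [ht]
  -- the Nash map
  obtain ⟨av, hav⟩ : ∃ av : (ι → ℝ) → ℝ, av = fun y => ∑ j, y j * c j y := ⟨_, rfl⟩
  have havc : Continuous av := by
    rw [hav]
    exact continuous_finsetSum _ fun j _ => (continuous_apply j).mul (hc j)
  obtain ⟨q, hq⟩ : ∃ q : (ι → ℝ) → ι → ℝ, q = fun y i => max 0 (av y - c i y) := ⟨_, rfl⟩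
  have hqc : ∀ i, Continuous fun y => q y i := by
    intro i
    rw [hq]
    exact continuous_const.max (havc.sub (hc i))
  have hq0 : ∀ y i, 0 ≤ q y i := by
    intro y i
    rw [hq]
    exact le_max_left _ _
  obtain ⟨T, hT⟩ : ∃ T : (ι → ℝ) → ι → ℝ, T = fun y i => (y i + q y i) / (1 + ∑ j, q y j) := ⟨_, rfl⟩
  have hden : ∀ y, 0 < 1 + ∑ j, q y j := by
    intro y
    have := Finset.sum_nonneg fun j (_ : j ∈ Finset.univ) => hq0 y j
    linarith
  have hTc : Continuous T := by
    rw [hT]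
    refine continuous_pi fun i => ?_
    refine Continuous.div ((continuous_apply i).add (hqc i))
      (continuous_const.add (continuous_finsetSum _ fun j _ => hqc j)) ?_
    intro y
    exact (hden y).ne'
  have hT0 : ∀ y : ι → ℝ, (∀ i, 0 ≤ y i) → ∀ i, 0 ≤ T y i := by
    intro y hy i
    rw [hT]
    exact div_nonneg (add_nonneg (hy i) (hq0 y i)) (hden y).le
  have hT1 : ∀ y : ι → ℝ, ∑ i, y i = 1 → ∑ i, T y i = 1 := by
    intro y hy
    rw [hT]
    simp only
    rw [← Finset.sum_div, Finset.sum_add_distrib, hy]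
    exact div_self (hden y).ne'
  obtain ⟨t, ht, hfix⟩ := brouwer_box (0 : ι → ℝ) (1 : ι → ℝ) (fun i => zero_le_one) (fun t => T (ρ t))
    (hTc.comp hρc).continuousOn (by
      intro t ht
      have h0 : ∀ i, 0 ≤ T (ρ t) i := hT0 _ (hρ0 t ht.1)
      have h1 : ∑ i, T (ρ t) i = 1 := hT1 _ (hρ1 t)
      refine ⟨fun i => h0 i, fun i => ?_⟩
      have h2 := Finset.single_le_sum (fun j _ => h0 j) (Finset.mem_univ i)
      rw [h1] at h2
      exact h2)
  have hfix' : T (ρ t) = t := hfix
  have ht1 : ∑ i, t i = 1 := by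
    rw [← hfix']
    exact hT1 _ (hρ1 t)
  rw [hρi t ht1] at hfix'
  have ht0 : ∀ i, 0 ≤ t i := fun i => ht.1 i
  obtain ⟨s, hs⟩ : ∃ s : ℝ, s = ∑ j, q t j := ⟨_, rfl⟩
  have key : ∀ i, t i * s = q t i := by
    intro i
    have h1 := congrFun hfix' i
    rw [hT] at h1
    simp only at h1
    rw [div_eq_iff (hden t).ne', ← hs] at h1
    linarith
  have havt : av t = ∑ j, t j * c j t := by rw [hav]
  -- some cost is at least the average
  have hex : ∃ i, 0 < t i ∧ av t ≤ c i t := by
    by_contra hcon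
    push Not at hcon
    have h1 : ∑ i, t i * (av t - c i t) = 0 := by
      simp only [mul_sub]
      rw [Finset.sum_sub_distrib, ← Finset.sum_mul, ht1, ← havt]
      ring
    have h2 : ∀ i ∈ Finset.univ, 0 ≤ t i * (av t - c i t) := by
      intro i _
      rcases (ht0 i).eq_or_lt with h | h
      · rw [← h, zero_mul]
      · exact mul_nonneg h.le (by linarith [hcon i h])
    rw [Finset.sum_eq_zero_iff_of_nonneg h2] at h1
    have h3 : ∀ i, t i = 0 := by
      intro i
      by_contra hne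
      have h4 : 0 < t i := lt_of_le_of_ne (ht0 i) (Ne.symm hne)
      have h5 := h1 i (Finset.mem_univ i)
      have h6 := hcon i h4
      have h7 : 0 < t i * (av t - c i t) := mul_pos h4 (by linarith)
      linarith
    rw [Finset.sum_eq_zero fun i _ => h3 i] at ht1
    exact zero_ne_one ht1
  obtain ⟨i0, hi0, hci0⟩ := hex
  have hq00 : q t i0 = 0 := by
    rw [hq]
    exact max_eq_left (by linarith)
  have hs0 : s = 0 := by
    have h1 := key i0
    rw [hq00] at h1
    rcases mul_eq_zero.mp h1 with h | h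
    · linarith
    · exact h
  have hcge : ∀ j, av t ≤ c j t := by
    intro j
    have h1 : q t j = 0 := by rw [← key j, hs0, mul_zero]
    rw [hq] at h1
    have h2 : av t - c j t ≤ max 0 (av t - c j t) := le_max_right _ _
    simp only at h1
    linarith
  refine ⟨t, ht0, ht1, fun i hi j => ?_⟩
  have h1 : ∑ i, t i * (c i t - av t) = 0 := by
    simp only [mul_sub]
    rw [Finset.sum_sub_distrib, ← Finset.sum_mul, ht1, ← havt]
    ring
  have h2 : ∀ i ∈ Finset.univ, 0 ≤ t i * (c i t - av t) := fun i _ =>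
    mul_nonneg (ht0 i) (by linarith [hcge i])
  rw [Finset.sum_eq_zero_iff_of_nonneg h2] at h1
  have h3 := h1 i (Finset.mem_univ i)
  rcases mul_eq_zero.mp h3 with h | h
  · linarith
  · linarith [hcge j]

end Pool.Agent.Helper24.UB
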