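import Mathlib
import Pool.Agent.Helper24.UB.Defs

/-! Skeleton (statements of the leaves; not imported by anything final). -/

set_option autoImplicit false

namespace Pool.Agent.Helper24.UB.Skel

open Matrix Pool.Agent.Helper22.Sym
open Pool.Agent.Helper12.LW (LFree chainP)

/-- (E1) Nash equilibrium for continuous costs on the simplex. -/
theorem nash {ι : Type} [Fintype ι] [Nonempty ι] (c : ι → (ι → ℝ) → ℝ) (hc : ∀ i, Continuous (c i)) :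
    ∃ y : ι → ℝ, (∀ i, 0 ≤ y i) ∧ ∑ i, y i = 1 ∧ ∀ i, 0 < y i → ∀ j, c i y ≤ c j y := by
  sorry

/-- (E2) existence of an equilibrium. -/
theorem exists_equi (K : Set (Fin 3 → ℝ)) (hK : LFree K) (ε : ℝ) (hε : 0 < ε) :
    ∃ (ι : Type) (_ : Fintype ι) (_ : Nonempty ι), Nonempty (Equi K ε ι) := by
  sorry

/-- (S1) Selling's formula. -/
theorem expand (G : Matrix (Fin 3) (Fin 3) ℝ) (hG : G.PosDef) (f g : Fin 4 → Fin 3 → ℤ) (h : Superb f g)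
    (u v : Fin 3 → ℝ) :
    u ⬝ᵥ G *ᵥ v = ∑ s : Fin 6, -bil G (f (pa s)) (f (pb s)) * ((toR (rt g s) ⬝ᵥ u) * (toR (rt g s) ⬝ᵥ v)) := by
  sorry

/-- (S2) two obtuse superbases of the same form have the roots of positive weight in common. -/
theorem root_common (G : Matrix (Fin 3) (Fin 3) ℝ) (hG : G.PosDef) (f g f' g' : Fin 4 → Fin 3 → ℤ)
    (h : Superb f g) (h' : Superb f' g')
    (hob : ∀ a b, a ≠ b → bil G (f a) (f b) ≤ 0) (hob' : ∀ a b, a ≠ b → bil G (f' a) (f' b) ≤ 0)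
    (s : Fin 6) (hs : bil G (f (pa s)) (f (pb s)) < 0) :
    ∃ a b : Fin 4, a ≠ b ∧ ∀ l, rt g s ⬝ᵥ f' l = (if a = l then 1 else 0) - (if b = l then 1 else 0) := by
  sorry

/-- (N1) the values of a root on the chain -/
theorem chain_val (f : Fin 4 → Fin 3 → ℤ) (z : Fin 3 → ℤ) (σ : Equiv.Perm (Fin 3)) (r : Fin 3 → ℤ) (a b : Fin 4)
    (h : ∀ l, r ⬝ᵥ f l = (if a = l then 1 else 0) - (if b = l then 1 else 0)) (k : Fin 4) :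
    r ⬝ᵥ chainP f z σ k = r ⬝ᵥ z + eta a b σ k := by
  sorry

/-- (N2) -/
theorem eta_le (a b : Fin 4) (σ : Equiv.Perm (Fin 3)) (k l : Fin 4) : eta a b σ k - eta a b σ l ≤ 1 := by
  sorry

/-- (N3) -/
theorem tt_mem (a b : Fin 4) (hab : a ≠ b) (σ : Equiv.Perm (Fin 3)) : tt a b σ = 0 ∨ tt a b σ = 1 := by
  sorry

/-- (N4) at most two of the common roots have both values twice -/
theorem tt_sum (F G f g : Fin 4 → Fin 3 → ℤ) (hF : Superb F G) (hf : Superb f g) (σ : Equiv.Perm (Fin 3))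
    (S : Finset (Fin 6)) (a b : Fin 6 → Fin 4) (hab : ∀ s ∈ S, a s ≠ b s)
    (h : ∀ s ∈ S, ∀ l, rt G s ⬝ᵥ f l = (if a s = l then 1 else 0) - (if b s = l then 1 else 0)) :
    ∑ s ∈ S, tt (a s) (b s) σ ≤ 2 := by
  sorry

/-! ### identities (I): `e` an equilibrium, `p`, `r` the Selling decomposition of its form, `w s = Q⁻¹ r s` -/

/-- (I0) -/
theorem w_spec {K : Set (Fin 3 → ℝ)} {ε : ℝ} {ι : Type} [Fintype ι] (e : Equi K ε ι) (u x : Fin 3 → ℝ) :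
    (e.Q⁻¹ *ᵥ u) ⬝ᵥ e.Q *ᵥ x = u ⬝ᵥ x := by
  sorry

/-- (I1) the normalisation -/
theorem norm_sum {K : Set (Fin 3 → ℝ)} {ε : ℝ} {ι : Type} [Fintype ι] (e : Equi K ε ι)
    (p : Fin 6 → ℝ) (r : Fin 6 → Fin 3 → ℤ)
    (hp : ∀ u v : Fin 3 → ℝ, u ⬝ᵥ e.Q *ᵥ v = ∑ s, p s * ((toR (r s) ⬝ᵥ u) * (toR (r s) ⬝ᵥ v))) :
    ∑ s, p s * ∑ i, e.y i * ∑ k, (e.v i k ⬝ᵥ e.Q⁻¹ *ᵥ toR (r s)) *
      ((r s ⬝ᵥ chainP (e.f i) (e.z i) (e.σ i) k : ℤ) : ℝ) = 1 := by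
  sorry

/-- (I2) the width in the direction `u`: `kp i`, `km i` are the places of the maximum and the minimum. -/
theorem width_le {K : Set (Fin 3 → ℝ)} {ε : ℝ} {ι : Type} [Fintype ι] (e : Equi K ε ι)
    (u : Fin 3 → ℝ) (kp km : ι → Fin 4)
    (hkp : ∀ i k, e.v i k ⬝ᵥ e.Q⁻¹ *ᵥ u ≤ e.v i (kp i) ⬝ᵥ e.Q⁻¹ *ᵥ u)
    (hkm : ∀ i k, e.v i (km i) ⬝ᵥ e.Q⁻¹ *ᵥ u ≤ e.v i k ⬝ᵥ e.Q⁻¹ *ᵥ u)
    (x x' : Fin 3 → ℝ) (hx : x ∈ K) (hx' : x' ∈ K) :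
    u ⬝ᵥ (x - x') ≤ ε * ((e.Q⁻¹ *ᵥ u) ⬝ᵥ (x - x')) +
      ∑ i, e.y i * (e.v i (kp i) ⬝ᵥ e.Q⁻¹ *ᵥ u - e.v i (km i) ⬝ᵥ e.Q⁻¹ *ᵥ u) := by
  sorry

/-- (I3) -/
theorem kappa_eq {K : Set (Fin 3 → ℝ)} {ε : ℝ} {ι : Type} [Fintype ι] (e : Equi K ε ι) (u : Fin 3 → ℝ) :
    u ⬝ᵥ e.Q⁻¹ *ᵥ u = ε * ((e.Q⁻¹ *ᵥ u) ⬝ᵥ (e.Q⁻¹ *ᵥ u)) +
      ∑ i, e.y i * ∑ k, (e.v i k ⬝ᵥ e.Q⁻¹ *ᵥ u) ^ 2 := by
  sorry

/-- (I4) the trace -/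
theorem kappa_sum (Q : Matrix (Fin 3) (Fin 3) ℝ) (hQ : Q.PosDef) (p : Fin 6 → ℝ) (r : Fin 6 → Fin 3 → ℤ)
    (hp : ∀ u v : Fin 3 → ℝ, u ⬝ᵥ Q *ᵥ v = ∑ s, p s * ((toR (r s) ⬝ᵥ u) * (toR (r s) ⬝ᵥ v))) :
    ∑ s, p s * (toR (r s) ⬝ᵥ Q⁻¹ *ᵥ toR (r s)) = 3 := by
  sorry

/-- (I5) -/
theorem kappa_le (Q : Matrix (Fin 3) (Fin 3) ℝ) (hQ : Q.PosDef) (p : Fin 6 → ℝ) (hp0 : ∀ s, 0 ≤ p s)
    (r : Fin 6 → Fin 3 → ℤ)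
    (hp : ∀ u v : Fin 3 → ℝ, u ⬝ᵥ Q *ᵥ v = ∑ s, p s * ((toR (r s) ⬝ᵥ u) * (toR (r s) ⬝ᵥ v))) (s : Fin 6) :
    p s * (toR (r s) ⬝ᵥ Q⁻¹ *ᵥ toR (r s)) ≤ 1 := by
  sorry

/-! ### final -/

/-- (F) -/
theorem universal (K : Set (Fin 3 → ℝ)) (hK : LFree K) (W : ℝ)
    (hW : ∀ r : Fin 3 → ℤ, r ≠ 0 → ∃ x ∈ K, ∃ x' ∈ K, W < toR r ⬝ᵥ (x - x')) :
    W ≤ (6 + Real.sqrt 66) / 4 := by
  sorry

end Pool.Agent.Helper24.UB.Skel
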